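import Pool.Agent.H.MP_602efc_co.As.Defs

/-!
# Binomial coefficients near the middle
-/

namespace CovAs

open Finset CodimTwo Filter Topology

/-- the middle binomial coefficient -/
noncomputable def mid (d : ℕ) : ℝ := (d.choose (d / 2) : ℝ)

theorem mid_pos (d : ℕ) : 0 < mid d := by
  unfold mid
  exact_mod_cast Nat.choose_pos (Nat.div_le_self d 2)

/-- `Nat.choose_le_middle` -/
theorem choose_le_mid (d r : ℕ) : (d.choose r : ℝ) ≤ mid d := by
  unfold mid
  exact_mod_cast Nat.choose_le_middle r d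

theorem An1_step (a d r : ℕ) (had : a < d) (h1 : 2 * r + 2 ≤ d) (h2 : d ≤ 2 * r + a) :
    ((d : ℝ) - a) / (d + a) * (d.choose (r + 1) : ℝ) ≤ (d.choose r : ℝ) := by
  have hr : r < d := by omega
  have h3 : (d.choose (r + 1) : ℝ) * ((r : ℝ) + 1) = (d.choose r : ℝ) * ((d : ℝ) - r) := by
    have h := Nat.choose_succ_right_eq d r
    have h' : ((d.choose (r + 1) * (r + 1) : ℕ) : ℝ) = ((d.choose r * (d - r) : ℕ) : ℝ) := by
      rw [h]
    rw [Nat.cast_mul, Nat.cast_mul, Nat.cast_sub hr.le] at h'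
    push_cast at h'
    exact h'
  have hd : (a : ℝ) < d := by exact_mod_cast had
  have ha : (0 : ℝ) ≤ a := Nat.cast_nonneg a
  have hr' : (r : ℝ) < d := by exact_mod_cast hr
  have h2' : (d : ℝ) ≤ 2 * r + a := by exact_mod_cast h2
  have hc : (0 : ℝ) ≤ (d.choose (r + 1) : ℝ) := Nat.cast_nonneg _
  have hpos : (0 : ℝ) < (d : ℝ) + a := by linarith
  have hpos2 : (0 : ℝ) < (d : ℝ) - r := by linarith
  rw [div_mul_eq_mul_div, div_le_iff₀ hpos]
  have h4 : ((d : ℝ) - a) * (d - r) ≤ (r + 1) * (d + a) := by nlinarith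
  have h5 : ((d : ℝ) - a) * (d.choose (r + 1) : ℝ) * (d - r)
      ≤ (d.choose r : ℝ) * (d + a) * (d - r) := by
    calc ((d : ℝ) - a) * (d.choose (r + 1) : ℝ) * (d - r)
        = (d.choose (r + 1) : ℝ) * (((d : ℝ) - a) * (d - r)) := by ring
      _ ≤ (d.choose (r + 1) : ℝ) * ((r + 1) * (d + a)) := mul_le_mul_of_nonneg_left h4 hc
      _ = (d.choose (r + 1) : ℝ) * ((r : ℝ) + 1) * (d + a) := by ring
      _ = (d.choose r : ℝ) * (d + a) * (d - r) := by rw [h3]; ring
  exact le_of_mul_le_mul_right h5 hpos2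

theorem An1_low (a d : ℕ) (had : a < d) : ∀ j r : ℕ, 2 * r + j = d → j ≤ a →
    (((d : ℝ) - a) / (d + a)) ^ j * mid d ≤ (d.choose r : ℝ) := by
  have hd : (a : ℝ) < d := by exact_mod_cast had
  have ha : (0 : ℝ) ≤ a := Nat.cast_nonneg a
  have hq0 : 0 ≤ ((d : ℝ) - a) / (d + a) := div_nonneg (by linarith) (by linarith)
  have hq1 : ((d : ℝ) - a) / (d + a) ≤ 1 := by
    rw [div_le_one (by linarith)]; linarith
  intro j
  induction j using Nat.strong_induction_on with
  | _ j ih =>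
    intro r hr hj
    rcases Nat.lt_or_ge j 2 with hj2 | hj2
    · have hrd : r = d / 2 := by omega
      have : mid d = (d.choose r : ℝ) := by rw [mid, hrd]
      rw [← this]
      calc (((d : ℝ) - a) / (d + a)) ^ j * mid d ≤ 1 * mid d :=
            mul_le_mul_of_nonneg_right (pow_le_one₀ hq0 hq1) (mid_pos d).le
        _ = mid d := one_mul _
    · have h1 := ih (j - 2) (by omega) (r + 1) (by omega) (by omega)
      have h2 := An1_step a d r had (by omega) (by omega)
      calc (((d : ℝ) - a) / (d + a)) ^ j * mid d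
          ≤ (((d : ℝ) - a) / (d + a)) ^ (j - 2 + 1) * mid d :=
            mul_le_mul_of_nonneg_right (pow_le_pow_of_le_one hq0 hq1 (by omega)) (mid_pos d).le
        _ = ((d : ℝ) - a) / (d + a) * ((((d : ℝ) - a) / (d + a)) ^ (j - 2) * mid d) := by
            rw [pow_succ]; ring
        _ ≤ ((d : ℝ) - a) / (d + a) * (d.choose (r + 1) : ℝ) :=
            mul_le_mul_of_nonneg_left h1 hq0
        _ ≤ (d.choose r : ℝ) := h2

theorem An1_lim (a : ℕ) :
    Tendsto (fun d : ℕ => (((d : ℝ) - a) / (d + a)) ^ a) atTop (𝓝 1) := by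
  have h1 : Tendsto (fun d : ℕ => (a : ℝ) / d) atTop (𝓝 0) :=
    tendsto_const_div_atTop_nhds_zero_nat (a : ℝ)
  have h2 : Tendsto (fun d : ℕ => (1 - (a : ℝ) / d) / (1 + (a : ℝ) / d)) atTop
      (𝓝 ((1 - 0) / (1 + 0))) :=
    (tendsto_const_nhds.sub h1).div (tendsto_const_nhds.add h1) (by norm_num)
  have h3 : Tendsto (fun d : ℕ => ((d : ℝ) - a) / (d + a)) atTop (𝓝 1) := by
    have : ((1 : ℝ) - 0) / (1 + 0) = 1 := by norm_num
    rw [this] at h2
    refine h2.congr' ?_
    filter_upwards [eventually_gt_atTop 0] with d hd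
    have hd' : (0 : ℝ) < d := by exact_mod_cast hd
    have ha : (0 : ℝ) ≤ a := Nat.cast_nonneg a
    rw [one_sub_div hd'.ne', one_add_div hd'.ne', div_div_div_cancel_right₀ hd'.ne']
  have h4 := h3.pow a
  rwa [one_pow] at h4

/-- Let `q = (d - a) / (d + a)`. If `2 r ≤ d`, `d ≤ 2 r + a` then `choose d r ≥ q^a * mid d`: induction on `d - 2 r`: if `d - 2 r ≤ 1` then `r = d / 2`; otherwise
`choose d r = choose d (r+1) * (r + 1) / (d - r)` (`Nat.choose_succ_right_eq`) and `(r + 1)/(d - r) ≥ q`, the number of steps is at most `a / 2`. For `2 r > d` use the symmetry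
`choose d r = choose d (d - r)`. Finally `q^a → 1`. -/
theorem choose_near (a : ℕ) {ε : ℝ} (hε : 0 < ε) : ∀ᶠ d : ℕ in atTop, ∀ r : ℕ,
    2 * r ≤ d + a → d ≤ 2 * r + a → (1 - ε) * mid d ≤ (d.choose r : ℝ) := by
  have h1 : ∀ᶠ d : ℕ in atTop, 1 - ε < (((d : ℝ) - a) / (d + a)) ^ a :=
    (An1_lim a).eventually (lt_mem_nhds (by linarith))
  filter_upwards [h1, eventually_gt_atTop a] with d hd had r hr1 hr2
  have hd' : (a : ℝ) < d := by exact_mod_cast had
  have ha : (0 : ℝ) ≤ a := Nat.cast_nonneg a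
  have hq0 : 0 ≤ ((d : ℝ) - a) / (d + a) := div_nonneg (by linarith) (by linarith)
  have hq1 : ((d : ℝ) - a) / (d + a) ≤ 1 := by
    rw [div_le_one (by linarith)]; linarith
  have key : ∀ s : ℕ, 2 * s ≤ d → d ≤ 2 * s + a → (1 - ε) * mid d ≤ (d.choose s : ℝ) := by
    intro s hs1 hs2
    have h2 := An1_low a d had (d - 2 * s) s (by omega) (by omega)
    refine le_trans (mul_le_mul_of_nonneg_right ?_ (mid_pos d).le) h2
    exact hd.le.trans (pow_le_pow_of_le_one hq0 hq1 (by omega))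
  rcases Nat.lt_or_ge d (2 * r) with h | h
  · have h3 := key (d - r) (by omega) (by omega)
    rwa [Nat.choose_symm (by omega : r ≤ d)] at h3
  · exact key r h hr2

theorem An1_pred_even (e : ℕ) (he : 1 ≤ e) : mid (2 * e - 1) / mid (2 * e) = 1 / 2 := by
  obtain ⟨f, rfl⟩ : ∃ f, e = f + 1 := ⟨e - 1, by omega⟩
  have h1 : mid (2 * (f + 1)) = 2 * mid (2 * (f + 1) - 1) := by
    unfold mid
    rw [show 2 * (f + 1) / 2 = f + 1 by omega, show (2 * (f + 1) - 1) / 2 = f by omega,
      show 2 * (f + 1) - 1 = 2 * f + 1 by omega, show 2 * (f + 1) = (2 * f + 1) + 1 by ring,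
      Nat.choose_succ_succ, Nat.choose_symm_half]
    push_cast
    ring
  rw [h1]
  have := mid_pos (2 * (f + 1) - 1)
  field_simp

theorem An1_pred_odd (e : ℕ) : mid (2 * e + 1 - 1) / mid (2 * e + 1) = ((e : ℝ) + 1) / (2 * e + 1) := by
  have h1 : ((2 * e : ℝ) + 1) * mid (2 * e) = mid (2 * e + 1) * ((e : ℝ) + 1) := by
    unfold mid
    rw [show 2 * e / 2 = e by omega, show (2 * e + 1) / 2 = e by omega,
      ← Nat.choose_symm_half]
    have h := Nat.add_one_mul_choose_eq (2 * e) e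
    have h' : (((2 * e + 1) * (2 * e).choose e : ℕ) : ℝ)
        = (((2 * e + 1).choose (e + 1) * (e + 1) : ℕ) : ℝ) := by rw [h]
    push_cast at h'
    exact h'
  have h2 := mid_pos (2 * e + 1)
  have h3 : (0 : ℝ) < 2 * e + 1 := by positivity
  rw [Nat.add_sub_cancel, div_eq_div_iff h2.ne' h3.ne']
  linarith

/-- `d = 2 e` (`e ≥ 1`): the quotient is `1/2`; `d = 2 e + 1`: it is `(e + 1)/(2 e + 1)`. So `|mid (d-1) / mid d - 1/2| ≤ 1/d`. -/
theorem mid_pred : Tendsto (fun d : ℕ => mid (d - 1) / mid d) atTop (𝓝 (1 / 2)) := by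
  rw [tendsto_iff_norm_sub_tendsto_zero]
  have h0 : Tendsto (fun d : ℕ => (1 : ℝ) / d) atTop (𝓝 0) :=
    tendsto_const_div_atTop_nhds_zero_nat (1 : ℝ)
  refine squeeze_zero' (Eventually.of_forall fun d => norm_nonneg _) ?_ h0
  filter_upwards [eventually_ge_atTop 2] with d hd
  have hd0 : (0 : ℝ) < d := by exact_mod_cast (by omega : 0 < d)
  rcases Nat.even_or_odd' d with ⟨e, rfl | rfl⟩
  · rw [An1_pred_even e (by omega), sub_self, norm_zero]
    positivity
  · rw [An1_pred_odd e]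
    have h3 : (0 : ℝ) < 2 * e + 1 := by positivity
    have h4 : ((e : ℝ) + 1) / (2 * e + 1) - 1 / 2 = 1 / (2 * (2 * e + 1)) := by
      field_simp
      ring
    rw [h4, Real.norm_of_nonneg (by positivity)]
    push_cast
    exact one_div_le_one_div_of_le h3 (by linarith)

/-- Induction on `t`: `mid (d - (t+1)) / mid d = mid (d - t - 1) / mid (d - t) * (mid (d - t) / mid d)`. -/
theorem mid_sub (t : ℕ) : Tendsto (fun d : ℕ => mid (d - t) / mid d) atTop (𝓝 (1 / 2 ^ t)) := by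
  induction t with
  | zero =>
    have : (fun d : ℕ => mid (d - 0) / mid d) = fun _ => (1 : ℝ) := by
      funext d
      rw [Nat.sub_zero, div_self (mid_pos d).ne']
    rw [this, pow_zero, div_one]
    exact tendsto_const_nhds
  | succ t ih =>
    have h1 : Tendsto (fun d : ℕ => mid (d - t - 1) / mid (d - t)) atTop (𝓝 (1 / 2)) :=
      mid_pred.comp (tendsto_sub_atTop_nat t)
    have h2 := h1.mul ih
    have h3 : (1 : ℝ) / 2 * (1 / 2 ^ t) = 1 / 2 ^ (t + 1) := by
      rw [pow_succ]; ring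
    rw [h3] at h2
    refine h2.congr fun d => ?_
    have h4 := mid_pos (d - t)
    have h5 := mid_pos d
    rw [← Nat.sub_sub]
    field_simp

end CovAs
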