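import Pool.Agent.H.MP_602efc_co.As.An1

/-!
# Kleitman's numbers near the middle
-/

namespace CovAs

open Finset CodimTwo Filter Topology

/-- `D = d - t + 2 j` (for `d ≥ t`). `D` even: `inc d D = choose d (D/2+1)`, between `(1 - ε) mid d` and `mid d` by `choose_near` with `a = t + 2 j + 2`. `D` odd:
`inc d D = 2 choose (d-1) (D/2+1)`, between `2 (1 - ε) mid (d-1)` and `2 mid (d-1)`, and `mid_pred`. -/
theorem inc_lim (t j : ℕ) :
    Tendsto (fun d : ℕ => (inc d (d - t + 2 * j) : ℝ) / mid d) atTop (𝓝 1) := by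
  have hm : Tendsto (fun d : ℕ => 2 * (mid (d - 1) / mid d)) atTop (𝓝 1) := by
    have h := mid_pred.const_mul (2 : ℝ)
    rwa [show (2 : ℝ) * (1 / 2) = 1 by norm_num] at h
  rw [tendsto_order]
  constructor
  · intro a ha
    obtain ⟨ε, hε, hε1, hεa⟩ : ∃ ε : ℝ, 0 < ε ∧ ε < 1 ∧ a < 1 - 2 * ε := by
      refine ⟨min (1 / 2) ((1 - a) / 4), lt_min (by norm_num) (by linarith), ?_, ?_⟩
      · exact lt_of_le_of_lt (min_le_left _ _) (by norm_num)
      · have h := min_le_right (1 / 2 : ℝ) ((1 - a) / 4)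
        linarith
    have h1 := choose_near (t + 2 * j + 2) hε
    have h2 := (tendsto_sub_atTop_nat 1).eventually h1
    have h3 : ∀ᶠ d : ℕ in atTop, 1 - ε < 2 * (mid (d - 1) / mid d) :=
      (tendsto_order.1 hm).1 _ (by linarith)
    filter_upwards [h1, h2, h3, eventually_ge_atTop (t + 1)] with d e1 e2 e3 hd
    have hp := mid_pos d
    rw [lt_div_iff₀ hp]
    rcases Nat.even_or_odd' (d - t + 2 * j) with ⟨r, hr | hr⟩
    · rw [hr, inc_even]
      have h4 := e1 (r + 1) (by omega) (by omega)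
      nlinarith
    · rw [hr, inc_odd]
      have h4 := e2 (r + 1) (by omega) (by omega)
      have h5 : (1 - ε) * mid d < 2 * mid (d - 1) := by
        have h6 := mul_lt_mul_of_pos_right e3 hp
        rwa [mul_assoc, div_mul_cancel₀ _ hp.ne'] at h6
      push_cast
      have h7' : a < (1 - ε) * (1 - ε) := by nlinarith
      have h7 : a * mid d < (1 - ε) * ((1 - ε) * mid d) := by
        rw [← mul_assoc]
        exact mul_lt_mul_of_pos_right h7' hp
      have h8 : (1 - ε) * ((1 - ε) * mid d) ≤ (1 - ε) * (2 * mid (d - 1)) :=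
        mul_le_mul_of_nonneg_left h5.le (by linarith)
      linarith
  · intro a ha
    have h3 : ∀ᶠ d : ℕ in atTop, 2 * (mid (d - 1) / mid d) < a :=
      (tendsto_order.1 hm).2 _ ha
    filter_upwards [h3] with d e3
    have hp := mid_pos d
    rw [div_lt_iff₀ hp]
    rcases Nat.even_or_odd' (d - t + 2 * j) with ⟨r, hr | hr⟩
    · rw [hr, inc_even]
      have h4 := choose_le_mid d (r + 1)
      nlinarith
    · rw [hr, inc_odd]
      have h4 := choose_le_mid (d - 1) (r + 1)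
      have h6 := mul_lt_mul_of_pos_right e3 hp
      rw [mul_assoc, div_mul_cancel₀ _ hp.ne'] at h6
      push_cast
      linarith

/-- `∑ i < s, inc d (D + 2 i) = gK d (D + 2 s) - gK d D` (`gK_succ`). -/
theorem gK_sum (d D s : ℕ) : gK d (D + 2 * s) = gK d D + ∑ i ∈ range s, inc d (D + 2 * i) := by
  induction s with
  | zero => simp
  | succ s ih =>
    rw [show D + 2 * (s + 1) = D + 2 * s + 2 by ring, gK_succ, ih, sum_range_succ]
    ring

/-- `j = 0`: for `d ≥ t`, by `gK_sym` with `D = d - t`, `D' = D + 2 (t - 1)` and `gK_sum`: `2 (2^d / 2 - gK d D) = ∑ i < t - 1, inc d (D + 2 i)`, and `inc_lim` for every `i`. For `j`: subtract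
`∑ i < j, inc d (D + 2 i)`. -/
theorem gK_lim (t j : ℕ) (ht : 1 ≤ t) : Tendsto (fun d : ℕ =>
    ((2 : ℝ) ^ d / 2 - (gK d (d - t + 2 * j) : ℝ)) / mid d) atTop
    (𝓝 (((t : ℝ) - 1) / 2 - j)) := by
  have hs : ∀ n : ℕ, Tendsto (fun d : ℕ => ∑ i ∈ range n, (inc d (d - t + 2 * i) : ℝ) / mid d) atTop
      (𝓝 (n : ℝ)) := by
    intro n
    have h := tendsto_finsetSum (range n) (fun i _ => inc_lim t i)
    simpa using h
  have h1 := ((hs (t - 1)).const_mul (1 / 2 : ℝ)).sub (hs j)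
  have h2 : (1 / 2 : ℝ) * ((t - 1 : ℕ) : ℝ) - (j : ℝ) = ((t : ℝ) - 1) / 2 - j := by
    rw [Nat.cast_sub ht]
    push_cast
    ring
  rw [h2] at h1
  refine h1.congr' ?_
  filter_upwards [eventually_ge_atTop (t + 1)] with d hd
  have hp := mid_pos d
  have h3 := gK_sum d (d - t) (t - 1)
  have h4 := gK_sum d (d - t) j
  have h5 := gK_sym (d := d) (D := d - t) (D' := d - t + 2 * (t - 1)) (by omega) (by omega)
  have h3' : (gK d (d - t + 2 * (t - 1)) : ℝ) = gK d (d - t) +
      ∑ i ∈ range (t - 1), (inc d (d - t + 2 * i) : ℝ) := by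
    rw [h3]
    push_cast
    rfl
  have h4' : (gK d (d - t + 2 * j) : ℝ) = gK d (d - t) +
      ∑ i ∈ range j, (inc d (d - t + 2 * i) : ℝ) := by
    rw [h4]
    push_cast
    rfl
  have h5' : (gK d (d - t) : ℝ) + gK d (d - t + 2 * (t - 1)) = 2 ^ d := by
    exact_mod_cast h5
  rw [← Finset.sum_div, ← Finset.sum_div, h4']
  field_simp
  linarith

/-- Show for all real `s` by induction on `t`: `∑ j < t, (1/2^(j+1)) (s - j) = s (1 - 1/2^t) - 1 + (t + 1)/2^t`. -/
theorem ct_sum (t : ℕ) : ∑ j ∈ range t, (1 / 2 ^ (j + 1) : ℝ) * (((t : ℝ) - 1) / 2 - j) =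
    ((t : ℝ) - 3 + (t + 3) / 2 ^ t) / 2 := by
  have key : ∀ s : ℝ, ∑ j ∈ range t, (1 / 2 ^ (j + 1) : ℝ) * (s - j) =
      s * (1 - 1 / 2 ^ t) - 1 + (t + 1) / 2 ^ t := by
    intro s
    induction t with
    | zero => simp
    | succ t ih =>
      rw [sum_range_succ, ih]
      push_cast
      rw [pow_succ]
      field_simp
      ring
  rw [key]
  field_simp
  ring

end CovAs
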