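import Pool.Agent.H.MP_602efc_co.As.Defs

/-!
# Closed form of the upper bound
-/

namespace CovAs

open Finset CodimTwo

/-- the outermost layer -/
def lay (d D : ℕ) : ℕ := if D % 2 = 0 then d.choose (D / 2) else 2 * (d - 1).choose (D / 2)

theorem inc_eq (d D : ℕ) : inc d D = lay d (D + 2) := by
  rcases Nat.even_or_odd' D with ⟨r, rfl | rfl⟩
  · rw [inc_even]
    unfold lay
    rw [if_pos (by omega), show (2 * r + 2) / 2 = r + 1 by omega]
  · rw [inc_odd]
    unfold lay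
    rw [if_neg (by omega), show (2 * r + 1 + 2) / 2 = r + 1 by omega]

theorem lay_le_gK (d D : ℕ) : lay d D ≤ gK d D := by
  rcases Nat.even_or_odd' D with ⟨r, rfl | rfl⟩
  · rw [gK_even]
    unfold lay
    rw [if_pos (by omega), Nat.mul_div_cancel_left r (by norm_num), bs_succ]
    exact Nat.le_add_left _ _
  · rw [gK_odd]
    unfold lay
    rw [if_neg (by omega), show (2 * r + 1) / 2 = r by omega, bs_succ]
    exact Nat.mul_le_mul_left 2 (Nat.le_add_left _ _)

/-- the summation by parts for `closed` -/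
theorem an3_sum (g : ℕ → ℕ) (hg : ∀ j, g j ≤ g (j + 1)) (s : ℕ) :
    ∑ j ∈ range (s + 1), 2 ^ (s - j) * g j + g s + g 0 =
      (2 ^ (s + 1) + 1) * g 0 + ∑ i ∈ range s, 2 ^ (s - i) * (g (i + 1) - g i) := by
  induction s with
  | zero =>
    simp
    ring
  | succ s ih =>
    rw [sum_range_succ, sum_range_succ (fun i => 2 ^ (s + 1 - i) * (g (i + 1) - g i))]
    have e1 : ∑ j ∈ range (s + 1), 2 ^ (s + 1 - j) * g j =
        2 * ∑ j ∈ range (s + 1), 2 ^ (s - j) * g j := by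
      rw [mul_sum]
      refine sum_congr rfl fun j hj => ?_
      have hj' : j ≤ s := by
        have := mem_range.1 hj
        omega
      rw [show s + 1 - j = (s - j) + 1 by omega, pow_succ]
      ring
    have e2 : ∑ i ∈ range s, 2 ^ (s + 1 - i) * (g (i + 1) - g i) =
        2 * ∑ i ∈ range s, 2 ^ (s - i) * (g (i + 1) - g i) := by
      rw [mul_sum]
      refine sum_congr rfl fun j hj => ?_
      have hj' := mem_range.1 hj
      rw [show s + 1 - j = (s - j) + 1 by omega, pow_succ]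
      ring
    rw [e1, e2]
    have h3 : g (s + 1) - g s + g s = g (s + 1) := Nat.sub_add_cancel (hg s)
    rw [Nat.sub_self, pow_zero, one_mul, show s + 1 - s = 1 by omega, pow_one]
    have h4 : (2 ^ (s + 1 + 1) + 1) * g 0 + g 0 = 2 * ((2 ^ (s + 1) + 1) * g 0) := by
      rw [pow_succ]
      ring
    omega

/-- With `g j = gK d (k + 2 j) = gK d k + ∑ i < j, inc d (k + 2 i)` (`gK_succ`) the sum is `(2^t - 1) gK d k + ∑ i < t-1, (2^(t-1-i) - 1) inc d (k + 2 i)`, and
`2^d = gK d k + gK d (k + 2 (t-1)) = 2 gK d k + ∑ i < t-1, inc d (k + 2 i)` (`gK_sym`). It may be easier to do an induction over `s ≤ t`: prove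
`∑ j < s, 2^(s-1-j) g j + g (s-1) + g 0 = (2^s + 1) g 0 + ∑ i < s-1, 2^(s-1-i) (g (i+1) - g i)` for every function `g` and `s ≥ 1`. -/
theorem closed {d k t : ℕ} (hk : k + t = d) (ht : 1 ≤ t) :
    ∑ j ∈ range t, 2 ^ (t - 1 - j) * gK d (k + 2 * j) + 2 ^ d =
      (2 ^ t + 1) * gK d k + ∑ i ∈ range (t - 1), 2 ^ (t - 1 - i) * inc d (k + 2 * i) := by
  obtain ⟨s, rfl⟩ : ∃ s, t = s + 1 := ⟨t - 1, by omega⟩
  rw [Nat.add_sub_cancel]
  have hg : ∀ j, gK d (k + 2 * j) ≤ gK d (k + 2 * (j + 1)) := by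
    intro j
    rw [show k + 2 * (j + 1) = (k + 2 * j) + 2 by ring, gK_succ]
    exact Nat.le_add_right _ _
  have h1 := an3_sum (fun j => gK d (k + 2 * j)) hg s
  have h2 : gK d (k + 2 * s) + gK d (k + 2 * 0) = 2 ^ d := by
    rw [add_comm]
    exact gK_sym (by omega) (by omega)
  have h3 : ∀ i, gK d (k + 2 * (i + 1)) - gK d (k + 2 * i) = inc d (k + 2 * i) := by
    intro i
    rw [show k + 2 * (i + 1) = (k + 2 * i) + 2 by ring, gK_succ]
    exact Nat.add_sub_cancel_left _ _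
  simp only [h3] at h1
  rw [mul_zero, add_zero] at h2 h1
  rw [← h2, ← add_assoc]
  exact h1

/-- `D = 2 r`: `choose d (r+1) (r+1) = choose d r (d - r)` (`Nat.choose_succ_right_eq`), and `(d - r)/(r + 1) ≤ (2 d - k)/(k + 2)`. `D = 2 r + 1`: the same with `d - 1`,
`(d - 1 - r)/(r + 1) ≤ (2 d - 1 - k)/(k + 1)` as `2 r + 1 ≥ k`. If `d < r` (resp. `d - 1 < r`) the left side is `0`. -/
theorem lay_step {d k D : ℕ} (h : k ≤ D) (hkd : k < d) :
    (lay d (D + 2) : ℝ) ≤ (2 * (d : ℝ) - k) / ((k : ℝ) + 1) * lay d D := by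
  have hk1 : (0 : ℝ) < (k : ℝ) + 1 := by positivity
  have hkd' : (k : ℝ) < d := by exact_mod_cast hkd
  rcases Nat.even_or_odd' D with ⟨r, rfl | rfl⟩
  · have e1 : lay d (2 * r + 2) = d.choose (r + 1) := by
      unfold lay
      rw [if_pos (by omega), show (2 * r + 2) / 2 = r + 1 by omega]
    have e2 : lay d (2 * r) = d.choose r := by
      unfold lay
      rw [if_pos (by omega), Nat.mul_div_cancel_left r (by norm_num)]
    rw [e1, e2]
    by_cases hr : d < r
    · rw [Nat.choose_eq_zero_of_lt (by omega : d < r + 1), Nat.choose_eq_zero_of_lt hr]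
      simp
    · push Not at hr
      have h1 := Nat.choose_succ_right_eq d r
      have h2 : (d.choose (r + 1) : ℝ) * ((r : ℝ) + 1) = (d.choose r : ℝ) * ((d : ℝ) - r) := by
        have h3 : ((d.choose (r + 1) * (r + 1) : ℕ) : ℝ) = ((d.choose r * (d - r) : ℕ) : ℝ) := by
          rw [h1]
        push_cast [Nat.cast_sub hr] at h3
        exact h3
      have hr1 : (0 : ℝ) < (r : ℝ) + 1 := by positivity
      have hkr : (k : ℝ) ≤ 2 * r := by exact_mod_cast h
      have hrd : (r : ℝ) ≤ d := by exact_mod_cast hr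
      rw [div_mul_eq_mul_div, le_div_iff₀ hk1]
      have h4 : (d.choose (r + 1) : ℝ) = (d.choose r : ℝ) * ((d : ℝ) - r) / ((r : ℝ) + 1) := by
        rw [eq_div_iff hr1.ne']
        exact h2
      rw [h4, div_mul_eq_mul_div, div_le_iff₀ hr1]
      have h5 : (0 : ℝ) ≤ (d.choose r : ℝ) := by positivity
      have h6 : ((d : ℝ) - r) * ((k : ℝ) + 1) ≤ (2 * (d : ℝ) - k) * ((r : ℝ) + 1) := by
        nlinarith
      nlinarith [mul_le_mul_of_nonneg_left h6 h5]
  · have e1 : lay d (2 * r + 1 + 2) = 2 * (d - 1).choose (r + 1) := by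
      unfold lay
      rw [if_neg (by omega), show (2 * r + 1 + 2) / 2 = r + 1 by omega]
    have e2 : lay d (2 * r + 1) = 2 * (d - 1).choose r := by
      unfold lay
      rw [if_neg (by omega), show (2 * r + 1) / 2 = r by omega]
    rw [e1, e2]
    by_cases hr : d - 1 < r
    · rw [Nat.choose_eq_zero_of_lt (by omega : d - 1 < r + 1), Nat.choose_eq_zero_of_lt hr]
      simp
    · push Not at hr
      have h1 := Nat.choose_succ_right_eq (d - 1) r
      have hd1 : ((d - 1 : ℕ) : ℝ) = (d : ℝ) - 1 := by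
        rw [Nat.cast_sub (by omega)]
        simp
      have h2 : ((d - 1).choose (r + 1) : ℝ) * ((r : ℝ) + 1) =
          ((d - 1).choose r : ℝ) * ((d : ℝ) - 1 - r) := by
        have h3 : (((d - 1).choose (r + 1) * (r + 1) : ℕ) : ℝ) =
            (((d - 1).choose r * (d - 1 - r) : ℕ) : ℝ) := by
          rw [h1]
        rw [Nat.cast_mul, Nat.cast_mul, Nat.cast_sub hr, hd1] at h3
        push_cast at h3
        exact h3
      have hr1 : (0 : ℝ) < (r : ℝ) + 1 := by positivity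
      have hkr : (k : ℝ) ≤ 2 * r + 1 := by exact_mod_cast h
      have hrd : (r : ℝ) ≤ d - 1 := by
        have : ((r : ℕ) : ℝ) ≤ ((d - 1 : ℕ) : ℝ) := by exact_mod_cast hr
        rw [hd1] at this
        exact this
      push_cast
      rw [div_mul_eq_mul_div, le_div_iff₀ hk1]
      have h4 : ((d - 1).choose (r + 1) : ℝ) =
          ((d - 1).choose r : ℝ) * ((d : ℝ) - 1 - r) / ((r : ℝ) + 1) := by
        rw [eq_div_iff hr1.ne']
        exact h2
      have h5 : (0 : ℝ) ≤ ((d - 1).choose r : ℝ) := by positivity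
      have h6 : ((d : ℝ) - 1 - r) * ((k : ℝ) + 1) ≤ (2 * (d : ℝ) - k) * ((r : ℝ) + 1) := by
        nlinarith
      have h7 : 2 * ((d - 1).choose (r + 1) : ℝ) * ((k : ℝ) + 1) =
          (2 * ((d - 1).choose r : ℝ) * (((d : ℝ) - 1 - r) * ((k : ℝ) + 1))) / ((r : ℝ) + 1) := by
        rw [h4]
        ring
      rw [h7, div_le_iff₀ hr1]
      nlinarith [mul_le_mul_of_nonneg_left h6 h5]

/-- With `q = (2 d - k)/(k + 1) < 2`: `inc d (k + 2 i) = lay d (k + 2 (i+1)) ≤ q^(i+1) lay d k` (`lay_step`, induction), and the geometric sum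
`∑ i < s, (q/2)^(i+1) ≤ (q/2)/(1 - q/2) = q/(2 - q) = (2 d - k)/(3 k + 2 - 2 d)`. -/
theorem geo {d k : ℕ} (s : ℕ) (hkd : k < d) (h3 : 2 * d < 3 * k + 2) :
    ∑ i ∈ range s, (inc d (k + 2 * i) : ℝ) / 2 ^ (i + 1) ≤
      (2 * (d : ℝ) - k) / (3 * (k : ℝ) + 2 - 2 * d) * lay d k := by
  have hk1 : (0 : ℝ) < (k : ℝ) + 1 := by positivity
  have hkd' : (k : ℝ) < d := by exact_mod_cast hkd
  have h3' : 2 * (d : ℝ) < 3 * k + 2 := by exact_mod_cast h3
  set q : ℝ := (2 * (d : ℝ) - k) / ((k : ℝ) + 1) with hq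
  have hq0 : 0 ≤ q := div_nonneg (by linarith) hk1.le
  have hq2 : q < 2 := by
    rw [hq, div_lt_iff₀ hk1]
    linarith
  have hl : ∀ i, (lay d (k + 2 * i) : ℝ) ≤ q ^ i * lay d k := by
    intro i
    induction i with
    | zero => simp
    | succ i ih =>
      have h1 := lay_step (d := d) (k := k) (D := k + 2 * i) (by omega) hkd
      rw [show k + 2 * (i + 1) = k + 2 * i + 2 by ring]
      calc (lay d (k + 2 * i + 2) : ℝ) ≤ q * lay d (k + 2 * i) := h1
        _ ≤ q * (q ^ i * lay d k) := mul_le_mul_of_nonneg_left ih hq0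
        _ = q ^ (i + 1) * lay d k := by ring
  have hterm : ∀ i, (inc d (k + 2 * i) : ℝ) / 2 ^ (i + 1) ≤ (q / 2) ^ (i + 1) * lay d k := by
    intro i
    rw [inc_eq, show k + 2 * i + 2 = k + 2 * (i + 1) by ring, div_pow, div_mul_eq_mul_div]
    exact div_le_div_of_nonneg_right (hl (i + 1)) (by positivity)
  have hlay0 : (0 : ℝ) ≤ lay d k := by positivity
  have hx0 : 0 ≤ q / 2 := by linarith
  have hx1 : q / 2 < 1 := by linarith
  have hgeo : ∑ i ∈ range s, (q / 2) ^ (i + 1) ≤ (q / 2) / (1 - q / 2) := by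
    have h1 : ∑ i ∈ range s, (q / 2) ^ (i + 1) = (q / 2) * ∑ i ∈ range s, (q / 2) ^ i := by
      rw [mul_sum]
      exact sum_congr rfl fun i _ => by ring
    have h2 : ∑ i ∈ range s, (q / 2) ^ i ≤ 1 / (1 - q / 2) := by
      rw [le_div_iff₀ (by linarith)]
      have h3 := geom_sum_mul_neg (q / 2) s
      rw [h3]
      have := pow_nonneg hx0 s
      linarith
    rw [h1, div_eq_mul_one_div (q / 2) (1 - q / 2)]
    exact mul_le_mul_of_nonneg_left h2 hx0
  have hval : (q / 2) / (1 - q / 2) = (2 * (d : ℝ) - k) / (3 * (k : ℝ) + 2 - 2 * d) := by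
    have h1 : (3 * (k : ℝ) + 2 - 2 * d) ≠ 0 := by
      have : 0 < 3 * (k : ℝ) + 2 - 2 * d := by linarith
      exact this.ne'
    have h2 : 1 - q / 2 ≠ 0 := by
      have : 0 < 1 - q / 2 := by linarith
      exact this.ne'
    rw [div_eq_div_iff h2 h1, hq]
    field_simp
    ring
  calc ∑ i ∈ range s, (inc d (k + 2 * i) : ℝ) / 2 ^ (i + 1)
      ≤ ∑ i ∈ range s, (q / 2) ^ (i + 1) * lay d k := sum_le_sum fun i _ => hterm i
    _ = (∑ i ∈ range s, (q / 2) ^ (i + 1)) * lay d k := by rw [sum_mul]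
    _ ≤ (q / 2) / (1 - q / 2) * lay d k := mul_le_mul_of_nonneg_right hgeo hlay0
    _ = (2 * (d : ℝ) - k) / (3 * (k : ℝ) + 2 - 2 * d) * lay d k := by rw [hval]

end CovAs
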