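import Pool.Agent.H.MP_602efc_co.As.An3

/-!
# The outermost layer is small
-/

namespace CovAs

open Finset CodimTwo

/-- Let `L : ℕ` be positive with `2 / L ≤ ε`, `q = 1 - 1/(2 L)`, so `q^i ≥ q^L ≥ 1/2` for `i ≤ L` (`one_add_mul_le_pow`). For `i ≤ L` and
`r` as in the statement (with `δ` small and `n` large): `(r - i + 1)/(n - r + i) ≥ q`, so `choose n (r - i) ≥ q^i choose n r ≥ choose n r / 2` for all `i ≤ L`
(`Nat.choose_succ_right_eq`), and `bs n (r+1) ≥ ∑ i < L, choose n (r - i) ≥ L/2 * choose n r`. It is enough that `(1 - q) r ≥ ..`: with `δ = 1/(8 L)` one has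
`r - L ≥ q (n - r + L)` as soon as `n` is large: `(1 + q) r ≥ (1 + q)(1 - δ) n / 2 ≥ q n + (1 - q)/4 * n`. -/
theorem choose_small {ε : ℝ} (hε : 0 < ε) : ∃ δ : ℝ, 0 < δ ∧ ∃ n0 : ℕ, ∀ n : ℕ, n0 ≤ n →
    ∀ r : ℕ, (1 - δ) * n ≤ 2 * r → 2 * r ≤ n → (n.choose r : ℝ) ≤ ε * bs n (r + 1) := by
  obtain ⟨L, hL⟩ := exists_nat_gt (2 / ε)
  have hL0 : (0 : ℝ) < L := lt_trans (by positivity) hL
  have hL1 : 1 ≤ L := by exact_mod_cast hL0
  have hL1' : (1 : ℝ) ≤ L := by exact_mod_cast hL1
  have h2 : 2 ≤ ε * L := by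
    have := (div_lt_iff₀ hε).1 hL
    linarith
  refine ⟨1 / (8 * L), by positivity, 16 * L ^ 2, fun n hn r h3 h4 => ?_⟩
  have hn' : 16 * (L : ℝ) ^ 2 ≤ n := by exact_mod_cast hn
  have h4' : 2 * (r : ℝ) ≤ n := by exact_mod_cast h4
  have hδ : 1 / (8 * (L : ℝ)) * n ≤ 1 / 8 * n := by
    apply mul_le_mul_of_nonneg_right _ (Nat.cast_nonneg n)
    rw [div_le_div_iff₀ (by positivity) (by norm_num)]
    linarith
  have hrL : (L : ℝ) ≤ r := by nlinarith
  have hrL' : L ≤ r := by exact_mod_cast hrL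
  set q : ℝ := 1 - 1 / (2 * L) with hq
  have hqL : 1 / (2 * (L : ℝ)) ≤ 1 / 2 := by
    rw [div_le_div_iff₀ (by positivity) (by norm_num)]
    linarith
  have hq0 : 0 ≤ q := by linarith
  have hq1 : q ≤ 1 := by
    have : (0 : ℝ) ≤ 1 / (2 * L) := by positivity
    linarith
  have key : (1 + q) * (r : ℝ) - q * n ≥ 2 * L := by
    have e1 : (1 / (8 * (L : ℝ))) * n * (8 * L) = n := by field_simp
    have e2 : (1 / (2 * (L : ℝ))) = 4 * (1 / (8 * (L : ℝ))) := by
      field_simp
      norm_num
    set c : ℝ := 1 / (8 * (L : ℝ)) with hc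
    have hc0 : 0 ≤ c := by positivity
    have h5 : c * n ≥ 2 * L := by
      by_contra h
      push Not at h
      have := mul_lt_mul_of_pos_right h (show (0 : ℝ) < 8 * L by positivity)
      rw [e1] at this
      nlinarith
    have hqc : q = 1 - 4 * c := by rw [hq, e2]
    rw [hqc]
    have h6 : (2 - 4 * c) * (2 * (r : ℝ)) ≥ (2 - 4 * c) * ((1 - c) * n) := by
      apply mul_le_mul_of_nonneg_left h3
      linarith
    have h7 : 0 ≤ c * c * n := by positivity
    nlinarith
  have step : ∀ i ≤ L, q ^ i * (n.choose r : ℝ) ≤ n.choose (r - i) := by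
    intro i
    induction i with
    | zero => intro _; simp
    | succ i ih =>
      intro hi
      have ih' := ih (by omega)
      obtain ⟨m, hm⟩ : ∃ m, r - i = m + 1 := ⟨r - i - 1, by omega⟩
      have hm' : r - (i + 1) = m := by omega
      rw [hm] at ih'
      rw [hm']
      have h8 := Nat.choose_succ_right_eq n m
      have hmn : m ≤ n := by omega
      have h9 : (n.choose (m + 1) : ℝ) * (m + 1) = n.choose m * ((n : ℝ) - m) := by
        have := congrArg (fun t : ℕ => (t : ℝ)) h8
        push_cast [Nat.cast_sub hmn] at this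
        exact this
      have hmr : (r : ℝ) - L ≤ m := by
        have : r ≤ m + L := by omega
        have : (r : ℝ) ≤ m + L := by exact_mod_cast this
        linarith
      have hnm : 0 < (n : ℝ) - m := by
        have : m < n := by omega
        have : (m : ℝ) < n := by exact_mod_cast this
        linarith
      have h10 : q * ((n : ℝ) - m) ≤ m + 1 := by nlinarith
      have h11 : q * (n.choose (m + 1) : ℝ) ≤ n.choose m := by
        have h12 : q * (n.choose (m + 1) : ℝ) * ((n : ℝ) - m) ≤ n.choose m * ((n : ℝ) - m) := by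
          rw [← h9]
          have : (0 : ℝ) ≤ n.choose (m + 1) := Nat.cast_nonneg _
          nlinarith
        exact le_of_mul_le_mul_right h12 hnm
      calc q ^ (i + 1) * (n.choose r : ℝ) = q * (q ^ i * (n.choose r : ℝ)) := by ring
        _ ≤ q * n.choose (m + 1) := mul_le_mul_of_nonneg_left ih' hq0
        _ ≤ n.choose m := h11
  have half : ∀ i ≤ L, (1 : ℝ) / 2 ≤ q ^ i := by
    intro i hi
    have hb := one_add_mul_le_pow (a := -(1 / (2 * (L : ℝ)))) (by linarith) i
    have hi' : (i : ℝ) ≤ L := by exact_mod_cast hi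
    have h13 : (i : ℝ) * (1 / (2 * L)) ≤ 1 / 2 := by
      rw [mul_one_div, div_le_div_iff₀ (by positivity) (by norm_num)]
      linarith
    have e : (1 : ℝ) + -(1 / (2 * (L : ℝ))) = q := by rw [hq]; ring
    rw [e] at hb
    linarith
  have hsum : ∑ i ∈ range L, (n.choose (r - i) : ℝ) ≤ bs n (r + 1) := by
    unfold bs
    push_cast
    have hinj : Set.InjOn (fun i => r - i) (range L : Finset ℕ) := by
      intro a ha b hb hab
      have ha' := mem_range.1 (mem_coe.1 ha)
      have hb' := mem_range.1 (mem_coe.1 hb)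
      simp only at hab
      omega
    rw [← sum_image (f := fun j => (n.choose j : ℝ)) (g := fun i => r - i) hinj]
    apply sum_le_sum_of_subset_of_nonneg
    · intro x hx
      obtain ⟨i, -, rfl⟩ := mem_image.1 hx
      exact mem_range.2 (by omega)
    · intro i _ _
      exact Nat.cast_nonneg _
  have hlow : (L : ℝ) * (1 / 2 * n.choose r) ≤ ∑ i ∈ range L, (n.choose (r - i) : ℝ) := by
    rw [show (L : ℝ) * (1 / 2 * n.choose r) = ∑ i ∈ range L, (1 / 2 * (n.choose r : ℝ)) by
      rw [sum_const, card_range, nsmul_eq_mul]]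
    apply sum_le_sum
    intro i hi
    have hi' := (mem_range.1 hi).le
    exact le_trans (mul_le_mul_of_nonneg_right (half i hi') (Nat.cast_nonneg _)) (step i hi')
  have hc : (0 : ℝ) ≤ n.choose r := Nat.cast_nonneg _
  have h14 : (n.choose r : ℝ) ≤ ε * (L * (1 / 2 * n.choose r)) := by nlinarith
  exact le_trans h14 (mul_le_mul_of_nonneg_left (le_trans hlow hsum) hε.le)

/-- `k = 2 r`: `choose_small` for `n = d`. `k = 2 r + 1`: `choose_small` for `n = d - 1` (take half of the `δ`). -/
theorem lay_small {ε : ℝ} (hε : 0 < ε) : ∃ δ : ℝ, 0 < δ ∧ ∃ d0 : ℕ, ∀ d : ℕ, d0 ≤ d →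
    ∀ k : ℕ, (1 - δ) * d ≤ k → k < d → (lay d k : ℝ) ≤ ε * gK d k := by
  obtain ⟨δ, hδ, n0, h⟩ := choose_small hε
  refine ⟨δ / 2, by positivity, n0 + 2, fun d hd k hk hkd => ?_⟩
  have hd2 : (2 : ℝ) ≤ d := by
    have : 2 ≤ d := by omega
    exact_mod_cast this
  rcases Nat.even_or_odd' k with ⟨r, rfl | rfl⟩
  · have e1 : lay d (2 * r) = d.choose r := by
      unfold lay
      rw [if_pos (by omega), Nat.mul_div_cancel_left r (by norm_num)]
    rw [e1, gK_even]
    apply h d (by omega) r _ (by omega)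
    push_cast at hk
    nlinarith
  · have e1 : lay d (2 * r + 1) = 2 * (d - 1).choose r := by
      unfold lay
      rw [if_neg (by omega), show (2 * r + 1) / 2 = r by omega]
    rw [e1, gK_odd]
    have h1 := h (d - 1) (by omega) r (by
      push_cast [Nat.cast_sub (show 1 ≤ d by omega)]
      push_cast at hk
      nlinarith) (by omega)
    push_cast
    linarith

end CovAs
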