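import Pool.Agent.H.MP_602efc_co.As.Cov

/-!
# Balls, and doubling
-/

namespace CovAs

open Finset CodimTwo

theorem Ba_conf_cons {d : ℕ} (a b : Option Bool) (f g : Fin d → Option Bool) :
    conf (Fin.cons a f : Fin (d + 1) → Option Bool) (Fin.cons b g) = cf a b + conf f g := by
  unfold conf
  rw [Fin.sum_univ_succ]
  simp only [Fin.cons_zero, Fin.cons_succ]

theorem Ba_cf_le (a b : Option Bool) : cf a b ≤ 1 := by
  unfold cf
  split_ifs <;> simp

theorem Ba_cf_some (a b : Bool) : cf (some a) (some b) = if a = b then 0 else 1 := by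
  unfold cf
  cases a <;> cases b <;> simp

/-- Index set `univ ×ˢ univ` of `Fin n × Bool`, words `Fin.cons (some b) (f u)`; `Fin.sum_univ_succ`. -/
theorem double {k d n : ℕ} (h : HasW k d n) : HasW (k + 1) (d + 1) (2 * n) := by
  obtain ⟨f, hf⟩ := h
  have h1 := HasW_family (k := k + 1) (d := d + 1) (univ : Finset (Fin n × Bool))
    (fun x => (Fin.cons (some x.2) (f x.1) : Fin (d + 1) → Option Bool)) ?_
  · rw [card_univ, Fintype.card_prod, Fintype.card_fin, Fintype.card_bool, mul_comm] at h1
    exact h1
  · rintro ⟨u, b⟩ - ⟨v, c⟩ - hne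
    simp only [Ba_conf_cons]
    by_cases huv : u = v
    · subst huv
      have hbc : b ≠ c := fun e => hne (by rw [e])
      rw [conf_self, Ba_cf_some, if_neg hbc]
      omega
    · have h2 := hf u v huv
      have h3 := Ba_cf_le (some b) (some c)
      omega

/-- The full words of the sets with at most `r` elements (`card_small` with `R = univ`, `q = r + 1`); the number of conflicts is `hd x y ≤ #x + #y` (`hd_le_add`). -/
theorem ball_even (d r : ℕ) : HasW (2 * r) d (bs d (r + 1)) := by
  have h1 := HasW_family (k := 2 * r) (d := d)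
    ((univ : Finset (Fin d)).powerset.filter (fun s => #s < r + 1))
    (fun x i => some (decide (i ∈ x))) ?_
  · rw [card_small, card_univ, Fintype.card_fin] at h1
    exact h1
  · intro x hx y hy hxy
    rw [mem_filter] at hx hy
    have hc : conf (fun i => some (decide (i ∈ x))) (fun i => some (decide (i ∈ y))) =
        hd x y := by
      unfold conf hd
      rw [← card_union_of_disjoint, card_eq_sum_ones, Cov_sum_filter]
      · refine Finset.sum_congr rfl fun i _ => ?_
        rw [Ba_cf_some]
        by_cases h1 : i ∈ x <;> by_cases h2 : i ∈ y <;> simp [h1, h2]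
      · rw [disjoint_left]
        intro i h1 h2
        exact (mem_sdiff.1 h2).2 (mem_sdiff.1 h1).1
    have h2 := hd_le_add x y
    have h3 : hd x y ≠ 0 := by
      intro e
      unfold hd at e
      have e1 : x \ y = ∅ := card_eq_zero.1 (by omega)
      have e2 : y \ x = ∅ := card_eq_zero.1 (by omega)
      exact hxy (Subset.antisymm (sdiff_eq_empty_iff_subset.1 e1)
        (sdiff_eq_empty_iff_subset.1 e2))
    rw [hc]
    omega

/-- `k = 2 r`: `ball_even`. `k = 2 r + 1`: `double` of `ball_even (d - 1) r`. -/
theorem ball_lower {k d : ℕ} (hk : k < d) : HasW k d (gK d k) := by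
  rcases Nat.even_or_odd' k with ⟨r, rfl | rfl⟩
  · rw [gK_even]
    exact ball_even d r
  · rw [gK_odd]
    obtain ⟨e, rfl⟩ : ∃ e, d = e + 1 := ⟨d - 1, by omega⟩
    exact double (ball_even e r)

end CovAs
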