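import Pool.Agent.H.MP_602efc_co.As.Defs

/-!
# Families of words
-/

namespace CovAs

open Finset CodimTwo

theorem Cov_sum_filter {d : ℕ} (s : Finset (Fin d)) :
    ∑ _i ∈ s, (1 : ℕ) = ∑ i, if i ∈ s then 1 else 0 := by
  rw [Finset.sum_ite_mem, Finset.univ_inter]

theorem cf_self (a : Option Bool) : cf a a = 0 := by
  unfold cf
  rw [if_neg]
  rintro ⟨_, _, h⟩
  exact h rfl

theorem cf_comm (a b : Option Bool) : cf a b = cf b a := by
  unfold cf
  refine if_congr ⟨fun h => ⟨h.2.1, h.1, h.2.2.symm⟩, fun h => ⟨h.2.1, h.1, h.2.2.symm⟩⟩ rfl rfl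

theorem conf_self {d : ℕ} (f : Fin d → Option Bool) : conf f f = 0 := by
  unfold conf
  exact Finset.sum_eq_zero fun i _ => cf_self _

theorem conf_comm {d : ℕ} (f g : Fin d → Option Bool) : conf f g = conf g f := by
  unfold conf
  exact Finset.sum_congr rfl fun i _ => cf_comm _ _

theorem conf_le {d : ℕ} (f g : Fin d → Option Bool) : conf f g ≤ d := by
  unfold conf
  refine (Finset.sum_le_card_nsmul univ _ 1 fun i _ => ?_).trans ?_
  · unfold cf
    split_ifs <;> simp
  · simp

/-- A finite family of words indexed by any finset (`Finset.equivFin`). -/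
theorem HasW_family {ι : Type*} {k d : ℕ} (I : Finset ι) (f : ι → Fin d → Option Bool)
    (h : ∀ x ∈ I, ∀ y ∈ I, x ≠ y → 1 ≤ conf (f x) (f y) ∧ conf (f x) (f y) ≤ k) :
    HasW k d (#I) := by
  refine ⟨fun u => f (I.equivFin.symm u).1, fun u v huv => ?_⟩
  refine h _ (I.equivFin.symm u).2 _ (I.equivFin.symm v).2 fun e => huv ?_
  exact I.equivFin.symm.injective (Subtype.ext e)

theorem HasW_zero (k d : ℕ) : HasW k d 0 := by
  exact ⟨fun u => u.elim0, fun u => u.elim0⟩

/-- compose with `Fin.castLE` -/
theorem HasW_mono {k d n m : ℕ} (h : HasW k d n) (hm : m ≤ n) : HasW k d m := by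
  obtain ⟨f, hf⟩ := h
  refine ⟨fun u => f (Fin.castLE hm u), fun u v huv => hf _ _ fun e => huv ?_⟩
  exact (Fin.castLE_injective hm) e

/-- Pairs (set of the positions of `some true`, set of the positions of `some false`); `wdist` of the pairs is `conf` of the words; different indices give
different pairs as `conf_self = 0`. Compare `covering_to_words` in `Pool/Agent/Results/MP_602efc_co/CodimTwo.lean`. -/
theorem HasW_words {k d n : ℕ} (h : HasW k d n) :
    ∃ W : Finset (Finset (Fin d) × Finset (Fin d)), #W = n ∧ (∀ w ∈ W, Disjoint w.1 w.2) ∧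
      (∀ u ∈ W, ∀ v ∈ W, u ≠ v → 1 ≤ wdist u v) ∧
      (∀ u ∈ W, ∀ v ∈ W, u ≠ v → wdist u v ≤ k) := by
  obtain ⟨f, hf⟩ := h
  set w : Fin n → Finset (Fin d) × Finset (Fin d) :=
    fun u => (univ.filter (fun i => f u i = some true), univ.filter (fun i => f u i = some false))
    with hw
  have hdist : ∀ u v : Fin n, wdist (w u) (w v) = conf (f u) (f v) := by
    intro u v
    unfold wdist conf
    rw [← card_union_of_disjoint]
    · rw [card_eq_sum_ones, Cov_sum_filter]
      refine Finset.sum_congr rfl fun i _ => ?_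
      simp only [hw, mem_union, mem_inter, mem_filter, mem_univ, true_and]
      unfold cf
      rcases f u i with _ | _ | _ <;> rcases f v i with _ | _ | _ <;> simp
    · rw [disjoint_left]
      intro i h1 h2
      simp only [hw, mem_inter, mem_filter, mem_univ, true_and] at h1 h2
      rw [h1.1] at h2
      simp at h2
  have hinj : Function.Injective w := by
    intro u v huv
    by_contra hne
    have h1 := (hf u v hne).1
    rw [← hdist, ← huv, hdist, conf_self] at h1
    omega
  refine ⟨univ.image w, ?_, ?_, ?_, ?_⟩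
  · rw [card_image_of_injective _ hinj, card_univ, Fintype.card_fin]
  · intro x hx
    obtain ⟨u, _, rfl⟩ := mem_image.mp hx
    rw [disjoint_left]
    intro i h1 h2
    simp only [hw, mem_filter, mem_univ, true_and] at h1 h2
    rw [h1] at h2
    simp at h2
  · intro x hx y hy hxy
    obtain ⟨u, _, rfl⟩ := mem_image.mp hx
    obtain ⟨v, _, rfl⟩ := mem_image.mp hy
    rw [hdist]
    exact (hf u v (fun h => hxy (by rw [h]))).1
  · intro x hx y hy hxy
    obtain ⟨u, _, rfl⟩ := mem_image.mp hx
    obtain ⟨v, _, rfl⟩ := mem_image.mp hy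
    rw [hdist]
    exact (hf u v (fun h => hxy (by rw [h]))).2

end CovAs
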