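import Pool.Agent.H.MP_602efc_co.Balls

/-!
# Definitions for the asymptotic results on `n(k,d)`

A word of length `d` is a map `Fin d → Option Bool`; the letter `none` is a star. Two words are in
conflict at `i` if one has the letter `some true` and the other `some false`.
-/

namespace CovAs

open Finset CodimTwo

/-- conflict of two letters -/
def cf (a b : Option Bool) : ℕ := if a ≠ none ∧ b ≠ none ∧ a ≠ b then 1 else 0

/-- number of conflicts of two words -/
def conf {d : ℕ} (f g : Fin d → Option Bool) : ℕ := ∑ i, cf (f i) (g i)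

/-- There are `n` words of length `d` with at least one and at most `k` conflicts between any
two of them. -/
def HasW (k d n : ℕ) : Prop :=
  ∃ f : Fin n → Fin d → Option Bool, ∀ u v, u ≠ v →
    1 ≤ conf (f u) (f v) ∧ conf (f u) (f v) ≤ k

/-- Kleitman's number: the largest size of a set of diameter at most `D` in the cube of dimension
`d`, for `D < d` (the formula is used for all `D`). -/
def gK (d D : ℕ) : ℕ := if D % 2 = 0 then bs d (D / 2 + 1) else 2 * bs (d - 1) (D / 2 + 1)

/-- the increment of Kleitman's number -/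
def inc (d D : ℕ) : ℕ :=
  if D % 2 = 0 then d.choose (D / 2 + 1) else 2 * (d - 1).choose (D / 2 + 1)

/-- number of ones -/
def ones {m : ℕ} (v : Fin m → Bool) : ℕ := #(univ.filter fun i => v i = true)

theorem gK_even (d r : ℕ) : gK d (2 * r) = bs d (r + 1) := by
  unfold gK
  rw [if_pos (by omega), Nat.mul_div_cancel_left r (by norm_num)]

theorem gK_odd (d r : ℕ) : gK d (2 * r + 1) = 2 * bs (d - 1) (r + 1) := by
  unfold gK
  rw [if_neg (by omega), show (2 * r + 1) / 2 = r by omega]

theorem inc_even (d r : ℕ) : inc d (2 * r) = d.choose (r + 1) := by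
  unfold inc
  rw [if_pos (by omega), Nat.mul_div_cancel_left r (by norm_num)]

theorem inc_odd (d r : ℕ) : inc d (2 * r + 1) = 2 * (d - 1).choose (r + 1) := by
  unfold inc
  rw [if_neg (by omega), show (2 * r + 1) / 2 = r by omega]

theorem gK_succ (d D : ℕ) : gK d (D + 2) = gK d D + inc d D := by
  rcases Nat.even_or_odd' D with ⟨r, rfl | rfl⟩
  · rw [show 2 * r + 2 = 2 * (r + 1) by ring, gK_even, gK_even, inc_even, bs_succ]
  · rw [show 2 * r + 1 + 2 = 2 * (r + 1) + 1 by ring, gK_odd, gK_odd, inc_odd, bs_succ]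
    ring

theorem bs_sym {n a b : ℕ} (h : a + b = n + 1) : bs n a + bs n b = 2 ^ n := by
  induction a generalizing b with
  | zero =>
    obtain rfl : b = n + 1 := by omega
    rw [bs_zero, bs_full, zero_add]
  | succ a ih =>
    have h1 := ih (b := b + 1) (by omega)
    rw [bs_succ] at h1 ⊢
    have h2 : n.choose a = n.choose b := Nat.choose_symm_of_eq_add (by omega)
    omega

theorem gK_sym {d D D' : ℕ} (hd : 1 ≤ d) (h : D + D' + 2 = 2 * d) :
    gK d D + gK d D' = 2 ^ d := by
  rcases Nat.even_or_odd' D with ⟨r, rfl | rfl⟩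
  · obtain ⟨s, rfl⟩ : ∃ s, D' = 2 * s := ⟨d - 1 - r, by omega⟩
    rw [gK_even, gK_even]
    exact bs_sym (by omega)
  · obtain ⟨s, rfl⟩ : ∃ s, D' = 2 * s + 1 := ⟨d - 2 - r, by omega⟩
    rw [gK_odd, gK_odd, ← mul_add, bs_sym (n := d - 1) (by omega)]
    obtain ⟨e, rfl⟩ : ∃ e, d = e + 1 := ⟨d - 1, by omega⟩
    rw [Nat.add_sub_cancel, pow_succ]
    ring

end CovAs
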