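import Pool.Agent.H.MP_602efc_co.As.Cov

/-!
# The lower bound construction
-/

namespace CovAs

open Finset CodimTwo

/-- The free positions: copy the letters of `v` until a boundary is reached. -/
def fp (h : ℕ) : (t : ℕ) → (Fin (2 * h + t) → Bool) → Fin t → Bool
  | 0, _ => fun _ => false
  | t + 1, v => if ones v ≤ h then fun _ => false
      else if h + t + 1 ≤ ones v then fun _ => true
      else Fin.cons (v 0) (fp h t (Fin.tail v))

/-- number of differences -/
def dst {m : ℕ} (v w : Fin m → Bool) : ℕ := #(univ.filter fun i => v i ≠ w i)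

/-- number of common ones -/
def bth {m : ℕ} (v w : Fin m → Bool) : ℕ := #(univ.filter fun i => v i = true ∧ w i = true)

theorem Lo_ones_sum {m : ℕ} (v : Fin m → Bool) : ones v = ∑ i, if v i = true then 1 else 0 := by
  unfold ones
  rw [card_filter]

theorem Lo_dst_sum {m : ℕ} (v w : Fin m → Bool) : dst v w = ∑ i, if v i ≠ w i then 1 else 0 := by
  unfold dst
  rw [card_filter]

theorem Lo_bth_sum {m : ℕ} (v w : Fin m → Bool) :
    bth v w = ∑ i, if v i = true ∧ w i = true then 1 else 0 := by
  unfold bth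
  rw [card_filter]

theorem Lo_ones_succ {m : ℕ} (v : Fin (m + 1) → Bool) :
    ones v = (if v 0 = true then 1 else 0) + ones (Fin.tail v) := by
  rw [Lo_ones_sum, Lo_ones_sum, Fin.sum_univ_succ]
  rfl

theorem Lo_ones_cons {m : ℕ} (a : Bool) (v : Fin m → Bool) :
    ones (Fin.cons a v : Fin (m + 1) → Bool) = (if a = true then 1 else 0) + ones v := by
  rw [Lo_ones_succ, Fin.cons_zero, Fin.tail_cons]

theorem Lo_dst_succ {m : ℕ} (v w : Fin (m + 1) → Bool) :
    dst v w = (if v 0 ≠ w 0 then 1 else 0) + dst (Fin.tail v) (Fin.tail w) := by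
  rw [Lo_dst_sum, Lo_dst_sum, Fin.sum_univ_succ]
  rfl

theorem Lo_bth_cons {m : ℕ} (a b : Bool) (v w : Fin m → Bool) :
    bth (Fin.cons a v : Fin (m + 1) → Bool) (Fin.cons b w) =
      (if a = true ∧ b = true then 1 else 0) + bth v w := by
  rw [Lo_bth_sum, Lo_bth_sum, Fin.sum_univ_succ]
  simp only [Fin.cons_zero, Fin.cons_succ]

theorem Lo_ones_le {m : ℕ} (v : Fin m → Bool) : ones v ≤ m := by
  unfold ones
  refine (card_filter_le _ _).trans ?_
  rw [card_univ, Fintype.card_fin]

theorem Lo_dst_le {m : ℕ} (v w : Fin m → Bool) : dst v w ≤ m := by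
  unfold dst
  refine (card_filter_le _ _).trans ?_
  rw [card_univ, Fintype.card_fin]

theorem Lo_dst_ones {m : ℕ} (v w : Fin m → Bool) : dst v w + ones v + ones w ≤ 2 * m := by
  rw [Lo_dst_sum, Lo_ones_sum, Lo_ones_sum, ← sum_add_distrib, ← sum_add_distrib]
  refine (Finset.sum_le_card_nsmul univ _ 2 fun i _ => ?_).trans ?_
  · cases v i <;> cases w i <;> simp
  · rw [card_univ, Fintype.card_fin, smul_eq_mul, mul_comm]

/-- Induction on `t`. In the third case `h < ones v < h + t + 1` and `ones v = [v 0] + ones (tail v)`. -/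
theorem ones_fp (h t : ℕ) (v : Fin (2 * h + t) → Bool) : ones (fp h t v) = min t (ones v - h) := by
  induction t with
  | zero =>
    rw [Lo_ones_sum]
    simp
  | succ t ih =>
    unfold fp
    split_ifs with h1 h2
    · rw [Lo_ones_sum]
      simp only [Bool.false_eq_true, if_false, sum_const_zero]
      omega
    · rw [Lo_ones_sum]
      simp only [if_true, sum_const, card_univ, Fintype.card_fin, smul_eq_mul, mul_one]
      omega
    · rw [Lo_ones_cons, ih (Fin.tail v)]
      have h3 := Lo_ones_succ (m := 2 * h + t) v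
      change ones v = (if v 0 = true then 1 else 0) + ones (Fin.tail v) at h3
      by_cases h0 : v 0 = true
      · rw [if_pos h0] at h3 ⊢
        omega
      · rw [if_neg h0] at h3 ⊢
        omega

/-- **Key inequality.** Induction on `t`. `t = 0`: `dst ≤ 2 h`. Step, with `m = 2 h + t + 1`, `o = ones v`, `o' = ones w`; note `dst v w ≤ m` and `dst v w + o + o' ≤ 2 m`.
If `o ≤ h` or `o' ≤ h` the second term is `0`. If `h + t + 1 ≤ o` then the second term is `ones (fp w) = min (t+1) (o' - h)` (`ones_fp`), and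
`dst + (o' - h) ≤ 2 m - o - o' + o' - h ≤ m`; the same for `o'`. Otherwise both are `Fin.cons`, and `[v 0 ≠ w 0] + [v 0 = w 0 = true] ≤ 1`, induction hypothesis for the tails. -/
theorem dst_add_bth (h t : ℕ) (v w : Fin (2 * h + t) → Bool) :
    dst v w + bth (fp h t v) (fp h t w) ≤ 2 * h + t := by
  induction t with
  | zero =>
    rw [Lo_bth_sum]
    simpa using Lo_dst_le v w
  | succ t ih =>
    have a1 := Lo_dst_le v w
    have a2 := Lo_dst_ones v w
    have a3 := ones_fp h (t + 1) v
    have a4 := ones_fp h (t + 1) w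
    by_cases c1 : ones v ≤ h
    · have e : fp h (t + 1) v = fun _ => false := by
        rw [fp, if_pos c1]
      rw [e, Lo_bth_sum]
      simpa using a1
    by_cases c2 : ones w ≤ h
    · have e : fp h (t + 1) w = fun _ => false := by
        rw [fp, if_pos c2]
      rw [e, Lo_bth_sum]
      simpa using a1
    by_cases c3 : h + t + 1 ≤ ones v
    · have e : fp h (t + 1) v = fun _ => true := by
        rw [fp, if_neg c1, if_pos c3]
      have e2 : bth (fp h (t + 1) v) (fp h (t + 1) w) = ones (fp h (t + 1) w) := by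
        rw [e, Lo_bth_sum, Lo_ones_sum]
        simp
      rw [e2, a4]
      omega
    by_cases c4 : h + t + 1 ≤ ones w
    · have e : fp h (t + 1) w = fun _ => true := by
        rw [fp, if_neg c2, if_pos c4]
      have e2 : bth (fp h (t + 1) v) (fp h (t + 1) w) = ones (fp h (t + 1) v) := by
        rw [e, Lo_bth_sum, Lo_ones_sum]
        simp
      rw [e2, a3]
      omega
    have e1 : fp h (t + 1) v = Fin.cons (v 0) (fp h t (Fin.tail v)) := by
      rw [fp, if_neg c1, if_neg c3]
    have e2 : fp h (t + 1) w = Fin.cons (w 0) (fp h t (Fin.tail w)) := by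
      rw [fp, if_neg c2, if_neg c4]
    have h3 := Lo_dst_succ (m := 2 * h + t) v w
    change dst v w = (if v 0 ≠ w 0 then 1 else 0) + dst (Fin.tail v) (Fin.tail w) at h3
    have h4 := ih (Fin.tail v) (Fin.tail w)
    rw [e1, e2, Lo_bth_cons, h3]
    have h5 : (if v 0 ≠ w 0 then 1 else 0) + (if v 0 = true ∧ w 0 = true then 1 else 0) ≤ 1 := by
      cases v 0 <;> cases w 0 <;> simp
    omega

theorem Lo_conf_append {m n : ℕ} (f g : Fin m → Option Bool) (f' g' : Fin n → Option Bool) :
    conf (Fin.append f f') (Fin.append g g') = conf f g + conf f' g' := by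
  unfold conf
  rw [Fin.sum_univ_add]
  simp only [Fin.append_left, Fin.append_right]

theorem Lo_conf_some {m : ℕ} (v w : Fin m → Bool) :
    conf (fun i => some (v i)) (fun i => some (w i)) = dst v w := by
  rw [Lo_dst_sum]
  unfold conf cf
  refine sum_congr rfl fun i _ => ?_
  rcases hv : v i <;> rcases hw : w i <;> simp [hv, hw]

theorem Lo_dst_pos {m : ℕ} {v w : Fin m → Bool} (h : v ≠ w) : 1 ≤ dst v w := by
  obtain ⟨i, hi⟩ := Function.ne_iff.1 h
  unfold dst
  exact card_pos.2 ⟨i, mem_filter.2 ⟨mem_univ _, hi⟩⟩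

/-- the last letters -/
def Lo_tl {t : ℕ} (p : Fin t → Bool) (a : Finset (Fin t)) (j : Fin t) : Option Bool :=
  if p j = true then some (decide (j ∈ a)) else none

theorem Lo_conf_tl {t : ℕ} (p q : Fin t → Bool) (a b : Finset (Fin t)) :
    conf (Lo_tl p a) (Lo_tl q b) ≤ bth p q := by
  rw [Lo_bth_sum]
  unfold conf
  refine sum_le_sum fun j _ => ?_
  unfold Lo_tl cf
  by_cases h1 : p j = true <;> by_cases h2 : q j = true
  · simp only [h1, h2, if_true, and_self]
    split_ifs <;> simp
  all_goals simp [h1, h2]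

theorem Lo_conf_tl_pos {t : ℕ} (p : Fin t → Bool) {a b : Finset (Fin t)} (hab : a ≠ b)
    (ha : a ⊆ univ.filter fun j => p j = true) (hb : b ⊆ univ.filter fun j => p j = true) :
    1 ≤ conf (Lo_tl p a) (Lo_tl p b) := by
  obtain ⟨j, hj⟩ : ∃ j, ¬ (j ∈ a ↔ j ∈ b) := by
    by_contra hcon
    push Not at hcon
    exact hab (Finset.ext hcon)
  have hp : p j = true := by
    by_cases h1 : j ∈ a
    · exact (mem_filter.1 (ha h1)).2
    · have h2 : j ∈ b := by
        by_contra h2
        exact hj ⟨fun h => absurd h h1, fun h => absurd h h2⟩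
      exact (mem_filter.1 (hb h2)).2
  unfold conf
  refine le_trans ?_ (single_le_sum (f := fun i => cf (Lo_tl p a i) (Lo_tl p b i))
    (fun i _ => Nat.zero_le _) (mem_univ j))
  unfold Lo_tl cf
  simp only [hp, if_true]
  by_cases h1 : j ∈ a <;> by_cases h2 : j ∈ b
  · exact absurd ⟨fun _ => h2, fun _ => h1⟩ hj
  · simp [h1, h2]
  · simp [h1, h2]
  · exact absurd ⟨fun h => absurd h h1, fun h => absurd h h2⟩ hj

/-- The words: index set: pairs `(v, a)` with `a` a set of free positions of `v`; the word is `some (v i)` on the first `2 h + t` places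
(`Fin.append`), and on the last `t` places `some (j ∈ a)` if `fp h t v j`, `none` otherwise. Conflicts: `Fin.sum_univ_add`; on the first part `dst v w`, on the second part at most
`bth`. For `v = w`, `a ≠ b` there is a conflict in the second part. `HasW_family`, `card_sigma`, `card_powerset`, `ones_fp`. -/
theorem lower_words (h t : ℕ) : HasW (2 * h + t) (2 * h + t + t)
    (∑ v : Fin (2 * h + t) → Bool, 2 ^ (min t (ones v - h))) := by
  have h1 := HasW_family (k := 2 * h + t) (d := 2 * h + t + t)
    ((univ : Finset (Fin (2 * h + t) → Bool)).sigma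
      (fun v => (univ.filter fun j => fp h t v j = true).powerset))
    (fun x => Fin.append (fun i => some (x.1 i)) (Lo_tl (fp h t x.1) x.2)) ?_
  · rw [card_sigma] at h1
    rw [sum_congr rfl fun v _ => ?_] at h1
    · exact h1
    · rw [card_powerset, ← ones_fp]
      rfl
  · rintro ⟨v, a⟩ hx ⟨w, b⟩ hy hne
    rw [mem_sigma] at hx hy
    have ha := mem_powerset.1 hx.2
    have hb := mem_powerset.1 hy.2
    simp only at ha hb
    simp only [Lo_conf_append, Lo_conf_some]
    have h2 := dst_add_bth h t v w
    have h3 := Lo_conf_tl (fp h t v) (fp h t w) a b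
    refine ⟨?_, by omega⟩
    by_cases hvw : v = w
    · subst hvw
      have hab : a ≠ b := fun e => hne (by rw [e])
      have h4 := Lo_conf_tl_pos (fp h t v) hab ha hb
      omega
    · have h4 := Lo_dst_pos hvw
      omega

/-- The number of vectors with at most `r` ones. -/
theorem card_ones_le (m r : ℕ) :
    #(univ.filter fun v : Fin m → Bool => ones v ≤ r) = bs m (r + 1) := by
  have h1 := card_small (univ : Finset (Fin m)) (r + 1)
  rw [card_univ, Fintype.card_fin] at h1
  rw [← h1]
  refine card_nbij' (fun v => univ.filter fun i => v i = true) (fun s i => decide (i ∈ s))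
    ?_ ?_ ?_ ?_
  · intro v hv
    have h2 := (mem_filter.1 hv).2
    refine mem_filter.2 ⟨mem_powerset.2 (subset_univ _), ?_⟩
    unfold ones at h2
    simp only
    omega
  · intro s hs
    have h2 := (mem_filter.1 hs).2
    refine mem_filter.2 ⟨mem_univ _, ?_⟩
    unfold ones
    simp only [decide_eq_true_eq, filter_mem_eq_inter, univ_inter]
    omega
  · intro v _
    ext i
    simp
  · intro s _
    ext i
    simp

theorem Lo_ones_compl {m : ℕ} (v : Fin m → Bool) : ones (fun i => !v i) + ones v = m := by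
  rw [Lo_ones_sum, Lo_ones_sum, ← sum_add_distrib]
  have h1 : ∀ i : Fin m, ((if (!v i) = true then 1 else 0) + (if v i = true then 1 else 0) : ℕ) = 1 := by
    intro i
    cases v i <;> simp
  rw [sum_congr rfl fun i _ => h1 i]
  simp

theorem Lo_card_ge {m r s : ℕ} (h : r + s = m) :
    #(univ.filter fun v : Fin m → Bool => s ≤ ones v) = bs m (r + 1) := by
  rw [← card_ones_le]
  refine card_nbij' (fun v i => !v i) (fun v i => !v i) ?_ ?_ ?_ ?_
  · intro v hv
    have h2 := (mem_filter.1 hv).2
    refine mem_filter.2 ⟨mem_univ _, ?_⟩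
    have h3 := Lo_ones_compl v
    simp only
    omega
  · intro v hv
    have h2 := (mem_filter.1 hv).2
    refine mem_filter.2 ⟨mem_univ _, ?_⟩
    have h3 := Lo_ones_compl v
    simp only
    omega
  · intro v _
    funext i
    simp
  · intro v _
    funext i
    simp

theorem Lo_pow_min (t x : ℕ) :
    2 ^ (min t x) = 1 + ∑ l ∈ range t, if l + 1 ≤ x then 2 ^ l else 0 := by
  induction t with
  | zero => simp
  | succ t ih =>
    rw [sum_range_succ, ← add_assoc, ← ih]
    by_cases h : t + 1 ≤ x
    · rw [if_pos h, min_eq_left h, min_eq_left (by omega), pow_succ]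
      ring
    · rw [if_neg h, min_eq_right (by omega), min_eq_right (by omega), add_zero]

/-- `2^(min t (x - h)) = 1 + ∑ l < t, [h + l + 1 ≤ x] 2^l`; the number of `v` with `h + l + 1 ≤ ones v` is the number of `v` with
`ones v ≤ 2 h + t - (h + l + 1) = h + (t - 1 - l)` (complement), `card_ones_le`, reflect the sum. -/
theorem lower_count (h t : ℕ) : ∑ v : Fin (2 * h + t) → Bool, 2 ^ (min t (ones v - h)) =
    2 ^ (2 * h + t) + ∑ j ∈ range t, 2 ^ (t - 1 - j) * bs (2 * h + t) (h + j + 1) := by
  have h1 : ∀ v : Fin (2 * h + t) → Bool, 2 ^ (min t (ones v - h)) =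
      1 + ∑ l ∈ range t, if h + l + 1 ≤ ones v then 2 ^ l else 0 := by
    intro v
    rw [Lo_pow_min]
    congr 1
    refine sum_congr rfl fun l _ => ?_
    exact if_congr (by omega) rfl rfl
  rw [sum_congr rfl fun v _ => h1 v, sum_add_distrib, sum_comm]
  congr 1
  · rw [sum_const, card_univ, Fintype.card_fun, Fintype.card_fin, Fintype.card_bool, smul_eq_mul,
      mul_one]
  · rw [← sum_range_reflect (fun j => 2 ^ (t - 1 - j) * bs (2 * h + t) (h + j + 1)) t]
    refine sum_congr rfl fun l hl => ?_
    rw [mem_range] at hl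
    rw [← sum_filter, sum_const, smul_eq_mul, mul_comm,
      Lo_card_ge (m := 2 * h + t) (r := h + (t - 1 - l)) (s := h + l + 1) (by omega)]
    rw [show t - 1 - (t - 1 - l) = l by omega]

theorem lower (h t : ℕ) : HasW (2 * h + t) (2 * h + t + t)
    (2 ^ (2 * h + t) + ∑ j ∈ range t, 2 ^ (t - 1 - j) * bs (2 * h + t) (h + j + 1)) := by
  rw [← lower_count]
  exact lower_words h t

end CovAs
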