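import Pool.Agent.H.MP_602efc_co.As.Up
import Pool.Agent.H.MP_602efc_co.As.Lo
import Pool.Agent.H.MP_602efc_co.As.Ba
import Pool.Agent.H.MP_602efc_co.As.An3

/-!
# The maximum
-/

namespace CovAs

open Finset CodimTwo

/-- the largest number of words -/
noncomputable def mx (k d : ℕ) : ℕ := sSup {n | HasW k d n}

/-- `HasW_zero`, `le_two_pow`, `Nat.sSup_mem`. -/
theorem mx_greatest (k d : ℕ) : IsGreatest {n | HasW k d n} (mx k d) := by
  have hb : BddAbove {n | HasW k d n} := ⟨2 ^ d, fun n hn => le_two_pow hn⟩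
  have hn : Set.Nonempty {n | HasW k d n} := ⟨0, HasW_zero k d⟩
  exact ⟨Nat.sSup_mem hn hb, fun n hn => le_csSup hb hn⟩

theorem le_mx {k d n : ℕ} (h : HasW k d n) : n ≤ mx k d := (mx_greatest k d).2 h

theorem mx_double (k d : ℕ) : 2 * mx k d ≤ mx (k + 1) (d + 1) :=
  le_mx (double (mx_greatest k d).1)

theorem mx_ball {k d : ℕ} (hk : k < d) : gK d k ≤ mx k d := le_mx (ball_lower hk)

theorem mx_lower (h t : ℕ) :
    2 ^ (2 * h + t) + ∑ j ∈ range t, 2 ^ (t - 1 - j) * bs (2 * h + t) (h + j + 1) ≤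
      mx (2 * h + t) (2 * h + t + t) := le_mx (lower h t)

/-- `upper`, divided by `2^t`. -/
theorem mx_upper {k d t : ℕ} (hk : k + t = d) (ht : 1 ≤ t) :
    (mx k d : ℝ) ≤ ∑ j ∈ range t, (1 / 2 ^ (j + 1) : ℝ) * gK d (k + 2 * j) + 2 ^ d / 2 ^ t := by
  have h1 := upper hk ht (mx_greatest k d).1
  have h2 : (2 : ℝ) ^ t * (mx k d : ℝ) ≤
      ∑ j ∈ range t, (2 : ℝ) ^ (t - 1 - j) * (gK d (k + 2 * j) : ℝ) + (2 : ℝ) ^ d := by
    exact_mod_cast h1
  have hpos : (0 : ℝ) < 2 ^ t := by positivity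
  rw [← mul_le_mul_iff_right₀ hpos]
  refine h2.trans (le_of_eq ?_)
  rw [mul_add, mul_div_cancel₀ _ hpos.ne', mul_sum]
  congr 1
  refine sum_congr rfl fun j hj => ?_
  rw [mem_range] at hj
  rw [← mul_assoc]
  congr 1
  rw [mul_one_div, eq_div_iff (by positivity), ← pow_add]
  congr 1
  omega

/-- `upper`, `closed`, divided by `2^t`. -/
theorem mx_upper' {k d t : ℕ} (hk : k + t = d) (ht : 1 ≤ t) :
    (mx k d : ℝ) ≤ (1 + 1 / 2 ^ t) * gK d k +
      ∑ i ∈ range (t - 1), (inc d (k + 2 * i) : ℝ) / 2 ^ (i + 1) := by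
  have h1 := upper hk ht (mx_greatest k d).1
  rw [closed hk ht] at h1
  have h2 : (2 : ℝ) ^ t * (mx k d : ℝ) ≤ ((2 : ℝ) ^ t + 1) * (gK d k : ℝ) +
      ∑ i ∈ range (t - 1), (2 : ℝ) ^ (t - 1 - i) * (inc d (k + 2 * i) : ℝ) := by
    exact_mod_cast h1
  have hpos : (0 : ℝ) < 2 ^ t := by positivity
  rw [← mul_le_mul_iff_right₀ hpos]
  refine h2.trans (le_of_eq ?_)
  rw [mul_add, ← mul_assoc, mul_add, mul_one, mul_one_div, div_self hpos.ne', mul_sum]
  congr 1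
  refine sum_congr rfl fun i hi => ?_
  rw [mem_range] at hi
  rw [mul_div_assoc', eq_div_iff (by positivity), mul_right_comm, ← pow_add]
  congr 2
  omega

/-- `mx_upper'`, `geo`. -/
theorem mx_geo {k d : ℕ} (hk : k < d) (h3 : 2 * d < 3 * k + 2) :
    (mx k d : ℝ) ≤ (1 + 1 / 2 ^ (d - k)) * gK d k +
      (2 * (d : ℝ) - k) / (3 * (k : ℝ) + 2 - 2 * d) * lay d k := by
  have h1 := mx_upper' (k := k) (d := d) (t := d - k) (by omega) (by omega)
  have h2 := geo (d - k - 1) hk h3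
  linarith

end CovAs
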