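import Pool.Agent.H.MP_602efc_co.As.Fi1
import Pool.Agent.H.MP_602efc_co.As.An2

/-!
# Fixed codimension
-/

namespace CovAs

open Finset CodimTwo Filter Topology

/-- the difference to the main term -/
noncomputable def df (t d : ℕ) : ℝ := ((1 + 1 / 2 ^ t) * 2 ^ d / 2 - (mx (d - t) d : ℝ)) / mid d

theorem Fi2_geom (t : ℕ) : ∑ j ∈ range t, (1 / 2 ^ (j + 1) : ℝ) = 1 - 1 / 2 ^ t := by
  induction t with
  | zero => simp
  | succ t ih =>
    rw [sum_range_succ, ih, pow_succ]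
    field_simp
    ring

theorem Fi2_geom2 (t : ℕ) : ∑ j ∈ range t, (2 ^ (t - 1 - j) : ℝ) = 2 ^ t - 1 := by
  rw [Finset.sum_range_reflect (fun j => (2 : ℝ) ^ j) t]
  induction t with
  | zero => simp
  | succ t ih =>
    rw [sum_range_succ, ih, pow_succ]
    ring

theorem Fi2_pow {t j : ℕ} (h : j < t) : (2 : ℝ) ^ (t - 1 - j) * (1 / 2 ^ t) = 1 / 2 ^ (j + 1) := by
  have h1 : (2 : ℝ) ^ t = 2 ^ (t - 1 - j) * 2 ^ (j + 1) := by
    rw [← pow_add]
    congr 1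
    omega
  rw [h1]
  field_simp

/-- Lower estimate: `mx_upper` and `∑ j < t, 1/2^(j+1) = 1 - 1/2^t` (so (1 + 1/2^t) 2^d/2 - 2^d/2^t = ∑ j < t, (1/2^(j+1)) 2^d / 2), for `d ≥ t`. -/
theorem df_ge {t d : ℕ} (ht : 1 ≤ t) (htd : t ≤ d) :
    ∑ j ∈ range t, (1 / 2 ^ (j + 1) : ℝ) * (((2 : ℝ) ^ d / 2 - (gK d (d - t + 2 * j) : ℝ)) / mid d)
      ≤ df t d := by
  have h1 := mx_upper (k := d - t) (d := d) (t := t) (by omega) ht
  have h2 : ∑ j ∈ range t, (1 / 2 ^ (j + 1) : ℝ) *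
      (((2 : ℝ) ^ d / 2 - (gK d (d - t + 2 * j) : ℝ)) / mid d) =
      ((1 - 1 / 2 ^ t) * (2 ^ d / 2) -
        ∑ j ∈ range t, (1 / 2 ^ (j + 1) : ℝ) * (gK d (d - t + 2 * j) : ℝ)) / mid d := by
    rw [← Fi2_geom, Finset.sum_mul, ← Finset.sum_sub_distrib, Finset.sum_div]
    apply Finset.sum_congr rfl
    intro j _
    ring
  rw [h2]
  unfold df
  apply div_le_div_of_nonneg_right _ (mid_pos d).le
  have h3 : (1 + 1 / 2 ^ t : ℝ) * 2 ^ d / 2 =
      (1 - 1 / 2 ^ t) * (2 ^ d / 2) + 2 ^ d / 2 ^ t := by ring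
  rw [h3]
  linarith

/-- the upper estimate for even `d` -/
noncomputable def ef (t d : ℕ) : ℝ := ∑ j ∈ range t, (2 ^ (t - 1 - j) : ℝ) *
  ((((2 : ℝ) ^ (d - t) / 2 - (gK (d - t) (d - t - t + 2 * j) : ℝ)) / mid (d - t)) *
    (mid (d - t) / mid d))

/-- `gK_lim`, `mid_sub`, `ct_sum` (`2^(t-1-j) / 2^t = 1/2^(j+1)`). -/
theorem ef_lim (t : ℕ) (ht : 1 ≤ t) :
    Tendsto (ef t) atTop (𝓝 (((t : ℝ) - 3 + (t + 3) / 2 ^ t) / 2)) := by
  have h1 : ∀ j ∈ range t, Tendsto (fun d : ℕ => (2 ^ (t - 1 - j) : ℝ) *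
      ((((2 : ℝ) ^ (d - t) / 2 - (gK (d - t) (d - t - t + 2 * j) : ℝ)) / mid (d - t)) *
        (mid (d - t) / mid d))) atTop
      (𝓝 ((2 ^ (t - 1 - j) : ℝ) * ((((t : ℝ) - 1) / 2 - j) * (1 / 2 ^ t)))) := by
    intro j _
    apply Tendsto.const_mul
    apply Tendsto.mul _ (mid_sub t)
    exact (gK_lim t j ht).comp (tendsto_sub_atTop_nat t)
  have h2 := tendsto_finsetSum (range t) h1
  have h3 : ∑ j ∈ range t, (2 ^ (t - 1 - j) : ℝ) * ((((t : ℝ) - 1) / 2 - j) * (1 / 2 ^ t)) =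
      ((t : ℝ) - 3 + (t + 3) / 2 ^ t) / 2 := by
    rw [← ct_sum]
    apply Finset.sum_congr rfl
    intro j hj
    rw [← Fi2_pow (Finset.mem_range.1 hj)]
    ring
  rw [h3] at h2
  exact h2

/-- `d = 2 h + 2 t`, `mx_lower`; `bs (2 h + t) (h + j + 1) = gK (2 h + t) (2 h + 2 j)` (`gK_even`), `2 h + t - t + 2 j = 2 (h + j)`. The identity
`∑ j < t, 2^(t-1-j) = 2^t - 1`. -/
theorem df_le_even {t d : ℕ} (hd : Even d) (htd : 2 * t ≤ d) : df t d ≤ ef t d := by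
  obtain ⟨h, rfl⟩ : ∃ h, d = 2 * h + 2 * t := by
    obtain ⟨e, he⟩ := hd
    exact ⟨e - t, by omega⟩
  have h1 := mx_lower h t
  have e1 : 2 * h + 2 * t - t = 2 * h + t := by omega
  have e2 : 2 * h + t + t = 2 * h + 2 * t := by omega
  have e3 : 2 * h + t - t = 2 * h := by omega
  rw [e2] at h1
  have h2 : (2 : ℝ) ^ (2 * h + t) + ∑ j ∈ range t, (2 ^ (t - 1 - j) : ℝ) *
      (gK (2 * h + t) (2 * h + 2 * j) : ℝ) ≤ (mx (2 * h + t) (2 * h + 2 * t) : ℝ) := by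
    have h3 : ((2 ^ (2 * h + t) + ∑ j ∈ range t, 2 ^ (t - 1 - j) * bs (2 * h + t) (h + j + 1) : ℕ) : ℝ)
        ≤ (mx (2 * h + t) (2 * h + 2 * t) : ℝ) := by exact_mod_cast h1
    push_cast at h3
    refine le_trans (le_of_eq ?_) h3
    congr 1
    apply Finset.sum_congr rfl
    intro j _
    rw [show 2 * h + 2 * j = 2 * (h + j) by ring, gK_even]
  have h4 : ef t (2 * h + 2 * t) = ((2 ^ t - 1) * (2 ^ (2 * h + t) / 2) -
      ∑ j ∈ range t, (2 ^ (t - 1 - j) : ℝ) * (gK (2 * h + t) (2 * h + 2 * j) : ℝ)) /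
        mid (2 * h + 2 * t) := by
    unfold ef
    rw [e1, e3, ← Fi2_geom2, Finset.sum_mul, ← Finset.sum_sub_distrib, Finset.sum_div]
    apply Finset.sum_congr rfl
    intro j _
    have h5 := (mid_pos (2 * h + t)).ne'
    have h6 := (mid_pos (2 * h + 2 * t)).ne'
    field_simp
  rw [h4]
  unfold df
  rw [e1]
  apply div_le_div_of_nonneg_right _ (mid_pos _).le
  have h7 : (1 + 1 / 2 ^ t : ℝ) * 2 ^ (2 * h + 2 * t) / 2 =
      (2 ^ t - 1) * (2 ^ (2 * h + t) / 2) + 2 ^ (2 * h + t) := by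
    have h8 : (2 : ℝ) ^ (2 * h + 2 * t) = 2 ^ (2 * h + t) * 2 ^ t := by
      rw [← pow_add]
      congr 1
      omega
    rw [h8]
    have h9 : (2 : ℝ) ^ t ≠ 0 := by positivity
    field_simp
    ring
  rw [h7]
  linarith

/-- `mx_double`: `mx (d - 1 - t) (d - 1)`; `df t d ≤ (2 mid (d-1) / mid d) * df t (d-1)`. -/
theorem df_le_odd {t d : ℕ} (hd : Odd d) (htd : 2 * t < d) :
    df t d ≤ 2 * (mid (d - 1) / mid d) * df t (d - 1) := by
  have h1 := mx_double (d - 1 - t) (d - 1)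
  rw [show d - 1 - t + 1 = d - t by omega, show d - 1 + 1 = d by omega] at h1
  have h2 : 2 * (mx (d - 1 - t) (d - 1) : ℝ) ≤ (mx (d - t) d : ℝ) := by exact_mod_cast h1
  have h3 : 2 * (mid (d - 1) / mid d) * df t (d - 1) =
      (2 * ((1 + 1 / 2 ^ t) * 2 ^ (d - 1) / 2 - (mx (d - 1 - t) (d - 1) : ℝ))) / mid d := by
    unfold df
    have h5 := (mid_pos (d - 1)).ne'
    have h6 := (mid_pos d).ne'
    field_simp
  rw [h3]
  unfold df
  apply div_le_div_of_nonneg_right _ (mid_pos _).le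
  have h4 : (2 : ℝ) ^ d = 2 * 2 ^ (d - 1) := by
    rw [← pow_succ']
    congr 1
    omega
  rw [h4]
  linarith

/-- **Fixed codimension.** Squeeze: `df_ge` and `gK_lim`, `ct_sum` from below; from above `df t d ≤ max (ef t d) (2 (mid (d-1)/mid d) ef t (d-1))` for large `d`
(by parity), and both entries tend to the same limit (`mid_pred`, `ef_lim`, composed with `d - 1`), `Tendsto.max`. -/
theorem part1 (t : ℕ) (ht : 1 ≤ t) :
    Tendsto (df t) atTop (𝓝 (((t : ℝ) - 3 + (t + 3) / 2 ^ t) / 2)) := by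
  have hlow : Tendsto (fun d : ℕ => ∑ j ∈ range t, (1 / 2 ^ (j + 1) : ℝ) *
      (((2 : ℝ) ^ d / 2 - (gK d (d - t + 2 * j) : ℝ)) / mid d)) atTop
      (𝓝 (((t : ℝ) - 3 + (t + 3) / 2 ^ t) / 2)) := by
    have h1 : ∀ j ∈ range t, Tendsto (fun d : ℕ => (1 / 2 ^ (j + 1) : ℝ) *
        (((2 : ℝ) ^ d / 2 - (gK d (d - t + 2 * j) : ℝ)) / mid d)) atTop
        (𝓝 ((1 / 2 ^ (j + 1) : ℝ) * (((t : ℝ) - 1) / 2 - j))) := by
      intro j _
      exact (gK_lim t j ht).const_mul _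
    have h2 := tendsto_finsetSum (range t) h1
    rw [ct_sum] at h2
    exact h2
  have hup1 := ef_lim t ht
  have hup2 : Tendsto (fun d : ℕ => 2 * (mid (d - 1) / mid d) * ef t (d - 1)) atTop
      (𝓝 (((t : ℝ) - 3 + (t + 3) / 2 ^ t) / 2)) := by
    have h1 := (mid_pred.const_mul 2).mul (hup1.comp (tendsto_sub_atTop_nat 1))
    have h2 : (2 * (1 / 2) : ℝ) * (((t : ℝ) - 3 + (t + 3) / 2 ^ t) / 2) =
        ((t : ℝ) - 3 + (t + 3) / 2 ^ t) / 2 := by ring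
    rw [h2] at h1
    exact h1
  have hup := hup1.max hup2
  rw [max_self] at hup
  refine tendsto_of_tendsto_of_tendsto_of_le_of_le' hlow hup ?_ ?_
  · filter_upwards [eventually_ge_atTop t] with d hd
    exact df_ge ht hd
  · filter_upwards [eventually_ge_atTop (2 * t + 1)] with d hd
    rcases Nat.even_or_odd d with he | ho
    · exact le_trans (df_le_even he (by omega)) (le_max_left _ _)
    · refine le_trans (df_le_odd ho (by omega)) (le_trans ?_ (le_max_right _ _))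
      apply mul_le_mul_of_nonneg_left
      · apply df_le_even _ (by omega)
        obtain ⟨e, he⟩ := ho
        exact ⟨e, by omega⟩
      · have h5 := mid_pos (d - 1)
        have h6 := mid_pos d
        positivity

end CovAs
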