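import Pool.Agent.H.MP_602efc_co.As.Fi2
import Pool.Agent.H.MP_602efc_co.As.An4

/-!
# Small codimension, uniformly; order of magnitude
-/

namespace CovAs

open Finset CodimTwo Filter Topology

/-- Upper half of the uniform statement: `mx_geo` and `lay_small`: for `k ≥ (1 - δ) d` with `δ ≤ 1/12` the factor `(2 d - k)/(3 k + 2 - 2 d)` is at most `2`. -/
theorem unif_upper {ε : ℝ} (hε : 0 < ε) : ∃ δ : ℝ, 0 < δ ∧ ∃ d0 : ℕ, ∀ d : ℕ, d0 ≤ d →
    ∀ k : ℕ, (1 - δ) * d ≤ k → k < d →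
      (mx k d : ℝ) ≤ (1 + 1 / 2 ^ (d - k)) * gK d k + ε * gK d k := by
  obtain ⟨δ, hδ, d0, h⟩ := lay_small (half_pos hε)
  refine ⟨min δ (1 / 12), lt_min hδ (by norm_num), d0, fun d hd k hk hkd => ?_⟩
  have hd0 : (0 : ℝ) ≤ d := Nat.cast_nonneg d
  have hk1 : (1 - δ) * d ≤ k := by
    refine le_trans ?_ hk
    have := min_le_left δ (1 / 12 : ℝ)
    nlinarith
  have hk2 : (1 - 1 / 12 : ℝ) * d ≤ k := by
    refine le_trans ?_ hk
    have := min_le_right δ (1 / 12 : ℝ)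
    nlinarith
  have h3 : 2 * (d : ℝ) < 3 * (k : ℝ) + 2 := by linarith
  have h3' : 2 * d < 3 * k + 2 := by exact_mod_cast h3
  refine (mx_geo hkd h3').trans ?_
  have h4 := h d hd k hk1 hkd
  have h5 : (2 * (d : ℝ) - k) / (3 * (k : ℝ) + 2 - 2 * d) ≤ 2 := by
    rw [div_le_iff₀ (by linarith)]
    linarith
  have h6 : (0 : ℝ) ≤ (lay d k : ℝ) := Nat.cast_nonneg _
  have h7 := mul_le_mul_of_nonneg_right h5 h6
  linarith

/-- For fixed `t`: `gK d (d - t) ≥ mid d * 2` eventually, more precisely `mid d ≤ ε gK d (d - t)` for large `d`: `lay_small` gives `lay d (d - t) ≤ ε gK d (d - t)`, and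
`lay d (d - t) ≥ mid d / 2` for large `d` (`lay d (D + 2) = inc d D`, `inc_lim` with `t + 2`). -/
theorem mid_small (t : ℕ) (ht : 1 ≤ t) {ε : ℝ} (hε : 0 < ε) :
    ∀ᶠ d : ℕ in atTop, mid d ≤ ε * gK d (d - t) := by
  obtain ⟨δ, hδ, d0, h⟩ := lay_small (half_pos hε)
  have h1 : ∀ᶠ d : ℕ in atTop, (1 / 2 : ℝ) < (inc d (d - (t + 2) + 2 * 0) : ℝ) / mid d :=
    (inc_lim (t + 2) 0).eventually (lt_mem_nhds (by norm_num))
  obtain ⟨m, hm⟩ := exists_nat_gt ((t : ℝ) / δ)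
  filter_upwards [h1, eventually_ge_atTop d0, eventually_ge_atTop (t + 2),
    eventually_ge_atTop m] with d e1 e2 e3 e4
  have e5 : (inc d (d - (t + 2) + 2 * 0) : ℝ) = lay d (d - t) := by
    rw [inc_eq, show d - (t + 2) + 2 * 0 + 2 = d - t by omega]
  rw [e5, lt_div_iff₀ (mid_pos d)] at e1
  have e6 : (1 - δ) * d ≤ ((d - t : ℕ) : ℝ) := by
    rw [Nat.cast_sub (by omega : t ≤ d)]
    have e7 : (m : ℝ) ≤ d := by exact_mod_cast e4
    have e8 : (t : ℝ) < m * δ := by rwa [div_lt_iff₀ hδ] at hm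
    nlinarith
  have e9 := h d e2 (d - t) e6 (by omega)
  linarith

/-- Lower half for fixed `t`: `part1` (so `df t d ≤ c` for large `d`, with `c` the limit plus one), `mid_small`, and `gK d (d - t) ≤ 2^d / 2` (`gK_sym` and monotonicity of `gK d` along steps of two,
for `t ≥ 1`). -/
theorem fixed_lower (t : ℕ) (ht : 1 ≤ t) {ε : ℝ} (hε : 0 < ε) :
    ∀ᶠ d : ℕ in atTop, (1 + 1 / 2 ^ t) * (gK d (d - t) : ℝ) - ε * gK d (d - t) ≤ mx (d - t) d := by
  obtain ⟨c, hc⟩ : ∃ c : ℝ, c = ((t : ℝ) - 3 + (t + 3) / 2 ^ t) / 2 := ⟨_, rfl⟩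
  have h1 : ∀ᶠ d : ℕ in atTop, df t d < |c| + 1 := by
    refine (part1 t ht).eventually (gt_mem_nhds ?_)
    rw [← hc]
    linarith [le_abs_self c]
  have hc0 : 0 < |c| + 1 := by linarith [abs_nonneg c]
  filter_upwards [h1, mid_small t ht (div_pos hε hc0), eventually_ge_atTop (t + 2)]
    with d e1 e2 e3
  have e4 : 2 * gK d (d - t) ≤ 2 ^ d := by
    have e5 := gK_sym (d := d) (D := d - t) (D' := d - t + 2 * (t - 1)) (by omega) (by omega)
    have e6 := gK_sum d (d - t) (t - 1)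
    omega
  have e4' : 2 * (gK d (d - t) : ℝ) ≤ 2 ^ d := by exact_mod_cast e4
  unfold df at e1
  rw [div_lt_iff₀ (mid_pos d)] at e1
  have e7 : (|c| + 1) * mid d ≤ ε * gK d (d - t) := by
    have e8 := mul_le_mul_of_nonneg_left e2 hc0.le
    rw [← mul_assoc, mul_div_cancel₀ _ hc0.ne'] at e8
    exact e8
  have e9 : (1 + 1 / 2 ^ t : ℝ) * (2 * (gK d (d - t) : ℝ)) ≤ (1 + 1 / 2 ^ t) * 2 ^ d :=
    mul_le_mul_of_nonneg_left e4' (by positivity)
  linarith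

/-- Lower half, uniformly: let `t₀` with `1/2^t₀ ≤ ε`. For `t = d - k ≥ t₀`: `mx_ball`. For the finitely many `t < t₀`: `fixed_lower`. -/
theorem unif_lower {ε : ℝ} (hε : 0 < ε) : ∃ d0 : ℕ, ∀ d : ℕ, d0 ≤ d → ∀ k : ℕ, k < d →
    (1 + 1 / 2 ^ (d - k)) * (gK d k : ℝ) - ε * gK d k ≤ mx k d := by
  obtain ⟨t₀, ht₀⟩ := exists_pow_lt_of_lt_one hε (by norm_num : (1 / 2 : ℝ) < 1)
  have h1 : ∀ᶠ d : ℕ in atTop, ∀ t ∈ range t₀, 1 ≤ t →
      (1 + 1 / 2 ^ t) * (gK d (d - t) : ℝ) - ε * gK d (d - t) ≤ mx (d - t) d := by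
    rw [Filter.eventually_all_finset]
    intro t _
    by_cases ht : 1 ≤ t
    · filter_upwards [fixed_lower t ht hε] with d hd _
      exact hd
    · exact Eventually.of_forall fun d hd => absurd hd ht
  obtain ⟨d0, hd0⟩ := eventually_atTop.1 h1
  refine ⟨d0, fun d hd k hk => ?_⟩
  by_cases h : d - k < t₀
  · have h2 := hd0 d hd (d - k) (mem_range.2 h) (by omega)
    rwa [show d - (d - k) = k by omega] at h2
  · have h2 : (gK d k : ℝ) ≤ mx k d := by exact_mod_cast mx_ball hk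
    have h3 : (1 : ℝ) / 2 ^ (d - k) ≤ ε := by
      refine le_trans ?_ ht₀.le
      rw [one_div_pow]
      exact one_div_le_one_div_of_le (by positivity)
        (pow_le_pow_right₀ (by norm_num) (by omega))
    have h4 : (0 : ℝ) ≤ gK d k := Nat.cast_nonneg _
    have h5 := mul_le_mul_of_nonneg_right h3 h4
    linarith

/-- **Small codimension.** -/
theorem part2 {ε : ℝ} (hε : 0 < ε) : ∃ δ : ℝ, 0 < δ ∧ ∃ d0 : ℕ, ∀ d : ℕ, d0 ≤ d →
    ∀ k : ℕ, (1 - δ) * d ≤ k → k < d →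
      |(mx k d : ℝ) - (1 + 1 / 2 ^ (d - k)) * gK d k| ≤ ε * gK d k := by
  obtain ⟨δ, hδ, d1, h1⟩ := unif_upper hε
  obtain ⟨d2, h2⟩ := unif_lower hε
  refine ⟨δ, hδ, max d1 d2, fun d hd k hk hkd => ?_⟩
  have e1 := h1 d ((le_max_left _ _).trans hd) k hk hkd
  have e2 := h2 d ((le_max_right _ _).trans hd) k hkd
  rw [abs_le]
  constructor <;> linarith

/-- **Order of magnitude.** `mx_ball`, `mx_geo`, `lay_le_gK`. -/
theorem part3 {k d : ℕ} (hk : k < d) (h3 : 2 * d < 3 * k + 2) :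
    (gK d k : ℝ) ≤ mx k d ∧
      (mx k d : ℝ) ≤ (1 + 1 / 2 ^ (d - k) + (2 * (d : ℝ) - k) / (3 * (k : ℝ) + 2 - 2 * d)) *
        gK d k := by
  refine ⟨by exact_mod_cast mx_ball hk, (mx_geo hk h3).trans ?_⟩
  have h1 : (lay d k : ℝ) ≤ gK d k := by exact_mod_cast lay_le_gK d k
  have h2 : (0 : ℝ) ≤ (2 * (d : ℝ) - k) / (3 * (k : ℝ) + 2 - 2 * d) := by
    have h4 : (k : ℝ) < d := by exact_mod_cast hk
    have h5 : 2 * (d : ℝ) < 3 * (k : ℝ) + 2 := by exact_mod_cast h3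
    apply div_nonneg <;> linarith [(Nat.cast_nonneg k : (0 : ℝ) ≤ k)]
  have h6 := mul_le_mul_of_nonneg_left h1 h2
  linarith

end CovAs
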