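import Pool.Agent.H.MP_602efc_co.As.Defs

/-!
# Kleitman's theorem on sets of given diameter in the cube
-/

namespace CovAs

open Finset CodimTwo

variable {α : Type*} [DecidableEq α]

/-- the `s`-neighbourhood of a family of subsets of `u` -/
def nb (u : Finset α) (𝒜 : Finset (Finset α)) (s : ℕ) : Finset (Finset α) :=
  u.powerset.filter fun B => ∃ A ∈ 𝒜, hd A B ≤ s

/-- `A \ B ⊆ (A \ C) ∪ (C \ B)`, `card_union_le`. -/
theorem hd_triangle (A C B : Finset α) : hd A B ≤ hd A C + hd C B := by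
  unfold hd
  have h1 : A \ B ⊆ (A \ C) ∪ (C \ B) := by
    intro x hx
    rw [mem_sdiff] at hx
    rw [mem_union, mem_sdiff, mem_sdiff]
    by_cases h : x ∈ C
    · exact Or.inr ⟨h, hx.2⟩
    · exact Or.inl ⟨hx.1, h⟩
  have h2 : B \ A ⊆ (C \ A) ∪ (B \ C) := by
    intro x hx
    rw [mem_sdiff] at hx
    rw [mem_union, mem_sdiff, mem_sdiff]
    by_cases h : x ∈ C
    · exact Or.inl ⟨h, hx.2⟩
    · exact Or.inr ⟨hx.1, h⟩
  have h3 := (card_le_card h1).trans (card_union_le _ _)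
  have h4 := (card_le_card h2).trans (card_union_le _ _)
  omega

/-- One step. Let `ℬ = u.powerset \ nb u 𝒜 1`; `iso` gives `r ≤ n` with `#ℬ + ell n r #𝒜 ≤ 2^(n+1)`, so `ell n r #𝒜 ≤ #(nb u 𝒜 1)`. By
`ell_mono`, `ell n r #𝒜 ≥ ell n r (gK (n+1) D)`. `D = 2 ρ`: `gK (n+1) D = bs (n+1) (ρ+1) = bs n (ρ+1) + bs n ρ` (`bs_pascal`) lies between
`2 bs n ρ` and `2 bs n (ρ+1)`, by `ell_min` the value is at least `ell n ρ (..) = 2 bs n (ρ+1) + slope * choose n ρ = 2 bs n (ρ+1) + choose n (ρ+1)` (`choose_slope`)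
`= bs (n+1) (ρ+2)`. `D = 2 ρ + 1`: `gK (n+1) D = 2 bs n (ρ+1)`, `ell_min` and `ell_node` with the line `ρ`. -/
theorem nb_step {n D : ℕ} (u : Finset α) (hu : #u = n + 1) (𝒜 : Finset (Finset α))
    (hA : ∀ A ∈ 𝒜, A ⊆ u) (hne : 𝒜.Nonempty) (h : gK (n + 1) D ≤ #𝒜) :
    gK (n + 1) (D + 2) ≤ #(nb u 𝒜 1) := by
  have hsub : nb u 𝒜 1 ⊆ u.powerset := filter_subset _ _
  have hcard : #(u.powerset \ nb u 𝒜 1) + #(nb u 𝒜 1) = 2 ^ (n + 1) := by
    rw [card_sdiff_add_card_eq_card hsub, card_powerset, hu]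
  obtain ⟨r, hr, hle⟩ := iso n u hu 𝒜 (u.powerset \ nb u 𝒜 1) hA
    (by
      intro B hB
      exact mem_powerset.1 (mem_sdiff.1 hB).1)
    (by
      intro A hA' B hB
      by_contra hcon
      obtain ⟨hB1, hB2⟩ := mem_sdiff.1 hB
      exact hB2 (mem_filter.2 ⟨hB1, A, hA', by omega⟩))
    (card_pos.2 hne)
  have hc : (#(u.powerset \ nb u 𝒜 1) : ℚ) + #(nb u 𝒜 1) = 2 ^ (n + 1) := by
    exact_mod_cast hcard
  have h1 : ell n r (#𝒜 : ℚ) ≤ #(nb u 𝒜 1) := by linarith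
  have h2 : ell n r (gK (n + 1) D : ℚ) ≤ ell n r (#𝒜 : ℚ) :=
    ell_mono n r hr (by exact_mod_cast h)
  have h3 : ((gK (n + 1) (D + 2) : ℕ) : ℚ) ≤ ell n r (gK (n + 1) D : ℚ) := by
    rcases Nat.even_or_odd' D with ⟨ρ, rfl | rfl⟩
    · have e0 : (gK (n + 1) (2 * ρ) : ℚ) = bs n (ρ + 1) + bs n ρ := by
        rw [gK_even, bs_pascal]
        push_cast
        ring
      have e1 : (bs n ρ : ℚ) ≤ bs n (ρ + 1) := by exact_mod_cast bs_mono n (Nat.le_succ ρ)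
      have h4 := ell_min n ρ (gK (n + 1) (2 * ρ) : ℚ) (by rw [e0]; linarith)
        (by rw [e0]; linarith) r
      refine le_trans (le_of_eq ?_) h4
      rw [show 2 * ρ + 2 = 2 * (ρ + 1) by ring, gK_even, bs_pascal, e0]
      unfold ell
      have e2 := choose_slope n ρ
      have e3 : (bs n (ρ + 1) : ℚ) = bs n ρ + (n.choose ρ : ℚ) := by exact_mod_cast bs_succ n ρ
      have e4 : (bs n (ρ + 1 + 1) : ℚ) = bs n (ρ + 1) + (n.choose (ρ + 1) : ℚ) := by
        exact_mod_cast bs_succ n (ρ + 1)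
      push_cast
      rw [e4, show (bs n (ρ + 1) : ℚ) + bs n ρ - 2 * bs n ρ = (n.choose ρ : ℚ) by rw [e3]; ring,
        e2]
      ring
    · have e0 : (gK (n + 1) (2 * ρ + 1) : ℚ) = 2 * bs n (ρ + 1) := by
        rw [gK_odd, Nat.add_sub_cancel]
        push_cast
        ring
      have e1 : (bs n ρ : ℚ) ≤ bs n (ρ + 1) := by exact_mod_cast bs_mono n (Nat.le_succ ρ)
      have h4 := ell_min n ρ (gK (n + 1) (2 * ρ + 1) : ℚ) (by rw [e0]; linarith)
        (by rw [e0]) r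
      refine le_trans (le_of_eq ?_) h4
      rw [show 2 * ρ + 1 + 2 = 2 * (ρ + 1) + 1 by ring, gK_odd, Nat.add_sub_cancel, e0, ell_node]
      push_cast
      ring
  have h4 := (h3.trans h2).trans h1
  exact_mod_cast h4

/-- Induction on `s`; `nb u (nb u 𝒜 s) 1 ⊆ nb u 𝒜 (s + 1)` by `hd_triangle`. -/
theorem nb_iter {n D : ℕ} (u : Finset α) (hu : #u = n + 1) (𝒜 : Finset (Finset α))
    (hA : ∀ A ∈ 𝒜, A ⊆ u) (hne : 𝒜.Nonempty) (h : gK (n + 1) D ≤ #𝒜) (s : ℕ) :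
    gK (n + 1) (D + 2 * s) ≤ #(nb u 𝒜 s) := by
  induction s with
  | zero =>
    refine h.trans (card_le_card fun A hA' => ?_)
    exact mem_filter.2 ⟨mem_powerset.2 (hA A hA'), A, hA', by rw [hd_self]⟩
  | succ s ih =>
    have hsub : 𝒜 ⊆ nb u 𝒜 s := fun A hA' =>
      mem_filter.2 ⟨mem_powerset.2 (hA A hA'), A, hA', by rw [hd_self]; exact Nat.zero_le _⟩
    have h1 := nb_step u hu (nb u 𝒜 s)
      (fun B hB => mem_powerset.1 (mem_filter.1 hB).1) (hne.mono hsub) ih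
    rw [show D + 2 * (s + 1) = D + 2 * s + 2 by ring]
    refine h1.trans (card_le_card fun B hB => ?_)
    obtain ⟨hB1, C, hC, hCB⟩ := mem_filter.1 hB
    obtain ⟨-, A, hA', hAC⟩ := mem_filter.1 hC
    refine mem_filter.2 ⟨hB1, A, hA', (hd_triangle A C B).trans ?_⟩
    omega

/-- **Kleitman's theorem.** Otherwise `nb_iter` with `s = d - 1 - D`: `gK d (2 d - 2 - D) ≤ #(nb u 𝒜 s)`, and the set of the complements `u \ A` is
disjoint from `nb u 𝒜 s` (`hd_compl`), so `#(nb u 𝒜 s) + #𝒜 ≤ 2^d`, contradiction to `gK_sym`. -/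
theorem kleitman {d D : ℕ} (hD : D < d) (u : Finset α) (hu : #u = d) (𝒜 : Finset (Finset α))
    (hA : ∀ A ∈ 𝒜, A ⊆ u) (hdiam : ∀ A ∈ 𝒜, ∀ B ∈ 𝒜, hd A B ≤ D) : #𝒜 ≤ gK d D := by
  by_contra hcon
  push Not at hcon
  obtain ⟨n, rfl⟩ : ∃ n, d = n + 1 := ⟨d - 1, by omega⟩
  have hne : 𝒜.Nonempty := card_pos.1 (by omega)
  have h1 := nb_iter u hu 𝒜 hA hne hcon.le (n - D)
  have hinj : #(𝒜.image (fun B => u \ B)) = #𝒜 := by
    apply card_image_of_injOn
    intro B hB0 B' hB0' he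
    simp only at he
    have := congrArg (fun C => u \ C) he
    simp only [Finset.sdiff_sdiff_eq_self (hA B hB0), Finset.sdiff_sdiff_eq_self (hA B' hB0')]
      at this
    exact this
  have hdis : Disjoint (nb u 𝒜 (n - D)) (𝒜.image (fun B => u \ B)) := by
    rw [disjoint_left]
    intro X hX hX'
    obtain ⟨B, hB, rfl⟩ := mem_image.1 hX'
    obtain ⟨-, A, hA', hAB⟩ := mem_filter.1 hX
    have h2 := hd_compl (hA A hA') (hA B hB)
    have h3 := hdiam A hA' B hB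
    omega
  have h2 := disjoint_card_le (u := u) (𝒜 := nb u 𝒜 (n - D))
    (ℬ := 𝒜.image (fun B => u \ B)) (fun B hB => mem_powerset.1 (mem_filter.1 hB).1)
    (by
      intro B hB
      obtain ⟨C, _, rfl⟩ := mem_image.1 hB
      exact sdiff_subset) hdis
  rw [hinj, hu] at h2
  have h3 := gK_sym (d := n + 1) (D := D) (D' := D + 2 * (n - D)) (by omega) (by omega)
  omega

end CovAs
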