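import Pool.Agent.H.MP_602efc_co.As.Kl
import Pool.Agent.H.MP_602efc_co.As.Cov

/-!
# The upper bound
-/

namespace CovAs

open Finset CodimTwo

variable {d : ℕ}

/-- the number of stars of a word -/
def st (w : Finset (Fin d) × Finset (Fin d)) : ℕ := d - (#w.1 + #w.2)

/-- the points covered by the words with at most `j` stars -/
def cov (W : Finset (Finset (Fin d) × Finset (Fin d))) (j : ℕ) : Finset (Finset (Fin d)) :=
  (W.filter fun w => st w ≤ j).biUnion cube

/-- For `i ∈ x \ y`: either `i ∈ u.1 ∩ v.2`, or `i` is a star of `u`, or a star of `v`; the same for `y \ x`. The stars of `u` are the elements of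
`univ \ (u.1 ∪ u.2)`, and `u.1`, `u.2` are disjoint as `x ∈ cube u`. -/
theorem hd_cube {u v : Finset (Fin d) × Finset (Fin d)} {x y : Finset (Fin d)}
    (hx : x ∈ cube u) (hy : y ∈ cube v) : hd x y ≤ wdist u v + st u + st v := by
  classical
  rw [mem_cube] at hx hy
  have hdu : Disjoint u.1 u.2 := by
    rw [disjoint_left]
    intro a h1 h2
    exact (mem_compl.mp (hx.2 h2)) (hx.1 h1)
  have hdv : Disjoint v.1 v.2 := by
    rw [disjoint_left]
    intro a h1 h2
    exact (mem_compl.mp (hy.2 h2)) (hy.1 h1)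
  have hsu : st u = #(univ \ (u.1 ∪ u.2)) := by
    rw [← compl_eq_univ_sdiff, card_compl, Fintype.card_fin, card_union_of_disjoint hdu]
    rfl
  have hsv : st v = #(univ \ (v.1 ∪ v.2)) := by
    rw [← compl_eq_univ_sdiff, card_compl, Fintype.card_fin, card_union_of_disjoint hdv]
    rfl
  have hsub : (x \ y) ∪ (y \ x) ⊆
      (((u.1 ∩ v.2) ∪ (u.2 ∩ v.1)) ∪ (univ \ (u.1 ∪ u.2))) ∪ (univ \ (v.1 ∪ v.2)) := by
    intro i hi
    simp only [mem_union, mem_sdiff, mem_inter, mem_univ, true_and, not_or] at hi ⊢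
    have a1 : i ∈ u.1 → i ∈ x := fun h => hx.1 h
    have a2 : i ∈ u.2 → i ∉ x := fun h => mem_compl.mp (hx.2 h)
    have a3 : i ∈ v.1 → i ∈ y := fun h => hy.1 h
    have a4 : i ∈ v.2 → i ∉ y := fun h => mem_compl.mp (hy.2 h)
    tauto
  have hd' : Disjoint (x \ y) (y \ x) := by
    rw [disjoint_left]
    intro a h1 h2
    exact (mem_sdiff.mp h2).2 (mem_sdiff.mp h1).1
  have h1 := card_le_card hsub
  rw [card_union_of_disjoint hd'] at h1
  have h2 := card_union_le (((u.1 ∩ v.2) ∪ (u.2 ∩ v.1)) ∪ (univ \ (u.1 ∪ u.2)))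
    (univ \ (v.1 ∪ v.2))
  have h3 := card_union_le ((u.1 ∩ v.2) ∪ (u.2 ∩ v.1)) (univ \ (u.1 ∪ u.2))
  have h4 := card_union_le (u.1 ∩ v.2) (u.2 ∩ v.1)
  unfold hd wdist
  omega

/-- `card_biUnion` (`cube_disjoint`) and `card_cube`. -/
theorem card_cov (W : Finset (Finset (Fin d) × Finset (Fin d)))
    (hdisj : ∀ w ∈ W, Disjoint w.1 w.2) (h1 : ∀ u ∈ W, ∀ v ∈ W, u ≠ v → 1 ≤ wdist u v)
    (j : ℕ) : #(cov W j) = ∑ w ∈ W.filter (fun w => st w ≤ j), 2 ^ st w := by
  unfold cov
  rw [card_biUnion]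
  · apply sum_congr rfl
    intro w hw
    exact card_cube w (hdisj w (mem_filter.mp hw).1)
  · intro u hu v hv huv
    exact cube_disjoint (h1 u (mem_filter.mp hu).1 v (mem_filter.mp hv).1 huv)

/-- the inequality for one word -/
theorem Up_word (s t : ℕ) :
    2 ^ t ≤ (∑ j ∈ range t, if s ≤ j then 2 ^ (t - 1 - j) * 2 ^ s else 0) + 2 ^ s := by
  induction t with
  | zero =>
    simp only [range_zero, sum_empty, zero_add, pow_zero]
    exact Nat.one_le_two_pow
  | succ t ih =>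
    rw [sum_range_succ]
    have h1 : ∀ j ∈ range t, (if s ≤ j then 2 ^ (t + 1 - 1 - j) * 2 ^ s else 0)
        = 2 * (if s ≤ j then 2 ^ (t - 1 - j) * 2 ^ s else 0) := by
      intro j hj
      rw [mem_range] at hj
      by_cases h : s ≤ j
      · rw [if_pos h, if_pos h, show t + 1 - 1 - j = (t - 1 - j) + 1 by omega, pow_succ]
        ring
      · rw [if_neg h, if_neg h]
    rw [sum_congr rfl h1, ← mul_sum]
    by_cases h : s ≤ t
    · rw [if_pos h, show t + 1 - 1 - t = 0 by omega, pow_zero, one_mul, pow_succ]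
      omega
    · rw [if_neg h]
      have h2 : 2 ^ (t + 1) ≤ 2 ^ s := Nat.pow_le_pow_right (by norm_num) (by omega)
      omega

/-- For every word with `s` stars: `2^t ≤ ∑ j < t with s ≤ j, 2^(t-1-j) 2^s + 2^s`. Sum over the words, interchange the sums, `card_cov`, and
`∑ w, 2^(st w) = #(cov W d) ≤ 2^d`. -/
theorem weight (W : Finset (Finset (Fin d) × Finset (Fin d)))
    (hdisj : ∀ w ∈ W, Disjoint w.1 w.2) (h1 : ∀ u ∈ W, ∀ v ∈ W, u ≠ v → 1 ≤ wdist u v)
    (t : ℕ) : 2 ^ t * #W ≤ ∑ j ∈ range t, 2 ^ (t - 1 - j) * #(cov W j) + 2 ^ d := by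
  have hsum : ∑ w ∈ W, 2 ^ st w ≤ 2 ^ d := by
    have e1 : W.filter (fun w => st w ≤ d) = W := by
      apply filter_true_of_mem
      intro w _
      exact Nat.sub_le _ _
    have e2 := card_cov W hdisj h1 d
    rw [e1] at e2
    rw [← e2]
    refine (card_le_univ _).trans ?_
    rw [Fintype.card_finset, Fintype.card_fin]
  have hmain : ∑ j ∈ range t, 2 ^ (t - 1 - j) * #(cov W j)
      = ∑ w ∈ W, ∑ j ∈ range t, if st w ≤ j then 2 ^ (t - 1 - j) * 2 ^ st w else 0 := by
    rw [sum_comm]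
    apply sum_congr rfl
    intro j _
    rw [card_cov W hdisj h1 j, mul_sum, sum_filter]
  calc 2 ^ t * #W = ∑ w ∈ W, 2 ^ t := by rw [sum_const, smul_eq_mul, mul_comm]
    _ ≤ ∑ w ∈ W, ((∑ j ∈ range t, if st w ≤ j then 2 ^ (t - 1 - j) * 2 ^ st w else 0)
        + 2 ^ st w) := sum_le_sum fun w _ => Up_word (st w) t
    _ = ∑ j ∈ range t, 2 ^ (t - 1 - j) * #(cov W j) + ∑ w ∈ W, 2 ^ st w := by
        rw [sum_add_distrib, hmain]
    _ ≤ _ := Nat.add_le_add_left hsum _

/-- `kleitman` with `u = univ`, `hd_cube`; for `u = v` the distance `wdist u u` is `0`. -/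
theorem cov_le (W : Finset (Finset (Fin d) × Finset (Fin d)))
    (hdisj : ∀ w ∈ W, Disjoint w.1 w.2) {k : ℕ}
    (h2 : ∀ u ∈ W, ∀ v ∈ W, u ≠ v → wdist u v ≤ k) {j : ℕ} (hj : k + 2 * j < d) :
    #(cov W j) ≤ gK d (k + 2 * j) := by
  apply kleitman hj univ (by rw [card_univ, Fintype.card_fin]) (cov W j)
  · intro A _
    exact subset_univ _
  · intro A hA B hB
    unfold cov at hA hB
    obtain ⟨u, hu, hAu⟩ := mem_biUnion.mp hA
    obtain ⟨v, hv, hBv⟩ := mem_biUnion.mp hB
    rw [mem_filter] at hu hv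
    have h3 := hd_cube hAu hBv
    have h4 : wdist u v ≤ k := by
      by_cases h : u = v
      · subst h
        have h5 := hdisj u hu.1
        have e1 : u.1 ∩ u.2 = ∅ := disjoint_iff_inter_eq_empty.mp h5
        have e2 : u.2 ∩ u.1 = ∅ := disjoint_iff_inter_eq_empty.mp h5.symm
        unfold wdist
        rw [e1, e2, card_empty]
        omega
      · exact h2 u hu.1 v hv.1 h
    omega

/-- `cov W i` and the set of the complements of the elements of `cov W j` are disjoint: `hd x xᶜ = d`, but `hd_cube` gives at most `k + i + j < d`. -/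
theorem cov_anti (W : Finset (Finset (Fin d) × Finset (Fin d)))
    (hdisj : ∀ w ∈ W, Disjoint w.1 w.2) {k : ℕ}
    (h2 : ∀ u ∈ W, ∀ v ∈ W, u ≠ v → wdist u v ≤ k) {i j : ℕ} (hj : k + i + j < d) :
    #(cov W i) + #(cov W j) ≤ 2 ^ d := by
  have hinj : #((cov W j).image compl) = #(cov W j) :=
    card_image_of_injective _ compl_injective
  have hdis : Disjoint (cov W i) ((cov W j).image compl) := by
    rw [disjoint_left]
    intro A hA hA'
    obtain ⟨B, hB, rfl⟩ := mem_image.mp hA'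
    unfold cov at hA hB
    obtain ⟨u, hu, hAu⟩ := mem_biUnion.mp hA
    obtain ⟨v, hv, hBv⟩ := mem_biUnion.mp hB
    rw [mem_filter] at hu hv
    have h3 := hd_cube hAu hBv
    have h4 : wdist u v ≤ k := by
      by_cases h : u = v
      · subst h
        have h5 := hdisj u hu.1
        have e1 : u.1 ∩ u.2 = ∅ := disjoint_iff_inter_eq_empty.mp h5
        have e2 : u.2 ∩ u.1 = ∅ := disjoint_iff_inter_eq_empty.mp h5.symm
        unfold wdist
        rw [e1, e2, card_empty]
        omega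
      · exact h2 u hu.1 v hv.1 h
    have h5 : hd Bᶜ B = d := by
      unfold hd
      have e1 : Bᶜ \ B = Bᶜ := by
        ext a; simp
      have e2 : B \ Bᶜ = B := by
        ext a; simp
      rw [e1, e2, card_compl, Fintype.card_fin]
      have := card_le_univ B
      rw [Fintype.card_fin] at this
      omega
    omega
  rw [← hinj, ← card_union_of_disjoint hdis]
  refine (card_le_univ _).trans ?_
  rw [Fintype.card_finset, Fintype.card_fin]

/-- one pair of terms -/
theorem Up_pair {a b x y c p q : ℕ} (hab : a ≤ b) (h1 : x + y ≤ c) (h2 : p + q = c) (h3 : x ≤ p) :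
    b * x + a * y ≤ b * p + a * q := by
  obtain ⟨e, rfl⟩ : ∃ e, b = a + e := ⟨b - a, by omega⟩
  have h4 : e * x ≤ e * p := Nat.mul_le_mul_left e h3
  have h5 : a * (x + y) ≤ a * (p + q) := Nat.mul_le_mul_left a (by omega)
  nlinarith [h4, h5]

/-- Arithmetic. Twice the left side is `∑ j < t, (2^(t-1-j) F j + 2^j F (t-1-j))` (`Finset.sum_range_reflect`), the same for `g`; each term: if `2 j < t`
then with `j' = t-1-j`: `2^j' F j + 2^j F j' ≤ (2^j' - 2^j) F j + 2^j c ≤ (2^j' - 2^j) g j + 2^j c = 2^j' g j + 2^j g j'`; otherwise exchange `j` and `j'`. -/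
theorem pairing {t c : ℕ} (F g : ℕ → ℕ) (h1 : ∀ i j, i + j + 1 = t → F i + F j ≤ c)
    (h2 : ∀ i j, i + j + 1 = t → g i + g j = c) (h3 : ∀ j, 2 * j < t → F j ≤ g j) :
    ∑ j ∈ range t, 2 ^ (t - 1 - j) * F j ≤ ∑ j ∈ range t, 2 ^ (t - 1 - j) * g j := by
  have hF : ∑ j ∈ range t, 2 ^ (t - 1 - j) * F j = ∑ j ∈ range t, 2 ^ j * F (t - 1 - j) := by
    rw [← sum_range_reflect (fun j => 2 ^ j * F (t - 1 - j)) t]
    apply sum_congr rfl
    intro j hj
    rw [mem_range] at hj
    rw [show t - 1 - (t - 1 - j) = j by omega]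
  have hg : ∑ j ∈ range t, 2 ^ (t - 1 - j) * g j = ∑ j ∈ range t, 2 ^ j * g (t - 1 - j) := by
    rw [← sum_range_reflect (fun j => 2 ^ j * g (t - 1 - j)) t]
    apply sum_congr rfl
    intro j hj
    rw [mem_range] at hj
    rw [show t - 1 - (t - 1 - j) = j by omega]
  have hmain : ∑ j ∈ range t, (2 ^ (t - 1 - j) * F j + 2 ^ j * F (t - 1 - j))
      ≤ ∑ j ∈ range t, (2 ^ (t - 1 - j) * g j + 2 ^ j * g (t - 1 - j)) := by
    apply sum_le_sum
    intro j hj
    rw [mem_range] at hj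
    by_cases h : 2 * j < t
    · exact Up_pair (Nat.pow_le_pow_right (by norm_num) (by omega))
        (h1 j (t - 1 - j) (by omega)) (h2 j (t - 1 - j) (by omega)) (h3 j h)
    · rw [add_comm, add_comm (2 ^ (t - 1 - j) * g j)]
      exact Up_pair (Nat.pow_le_pow_right (by norm_num) (by omega))
        (h1 (t - 1 - j) j (by omega)) (h2 (t - 1 - j) j (by omega))
        (h3 (t - 1 - j) (by omega))
  rw [sum_add_distrib, sum_add_distrib, ← hF, ← hg] at hmain
  omega

/-- `HasW_words`, `weight`, `pairing` with `F j = #(cov W j)`, `g j = gK d (k + 2 j)`, `c = 2^d`, `gK_sym`. -/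
theorem upper {k t n : ℕ} (hk : k + t = d) (ht : 1 ≤ t) (h : HasW k d n) :
    2 ^ t * n ≤ ∑ j ∈ range t, 2 ^ (t - 1 - j) * gK d (k + 2 * j) + 2 ^ d := by
  obtain ⟨W, hcard, hdisj, h1, h2⟩ := HasW_words h
  rw [← hcard]
  refine (weight W hdisj h1 t).trans ?_
  apply Nat.add_le_add_right
  apply pairing (c := 2 ^ d) (fun j => #(cov W j)) (fun j => gK d (k + 2 * j))
  · intro i j hij
    exact cov_anti W hdisj h2 (by omega)
  · intro i j hij
    exact gK_sym (by omega) (by omega)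
  · intro j hj
    exact cov_le W hdisj h2 (by omega)

/-- `weight` with `t = 0`. -/
theorem le_two_pow {k n : ℕ} (h : HasW k d n) : n ≤ 2 ^ d := by
  obtain ⟨W, hcard, hdisj, h1, _⟩ := HasW_words h
  have h2 := weight W hdisj h1 0
  rw [hcard] at h2
  simpa using h2

end CovAs
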